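import Mathlib

open Finset

set_option linter.unusedSectionVars false

namespace Pool.Agent.Results.MP_a221c1_pr.BoundedDegree

section Defs

variable {V : Type} [Fintype V] [DecidableEq V]

/-- Proper colourings of `G` with colours `Fin q`. -/
abbrev PColoring (G : SimpleGraph V) (q : ℕ) : Type :=
  {σ : V → Fin q // ∀ u v, G.Adj u v → σ u ≠ σ v}

/-- Recolour `v` with `c` if the result is proper, otherwise stay. -/
def move (G : SimpleGraph V) [DecidableRel G.Adj] {q : ℕ} (σ : PColoring G q) (v : V)
    (c : Fin q) : PColoring G q :=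
  if h : ∀ u w, G.Adj u w → Function.update σ.1 v c u ≠ Function.update σ.1 v c w then
    ⟨Function.update σ.1 v c, h⟩
  else σ

/-- Transition matrix of Glauber dynamics. -/
noncomputable def glauber (G : SimpleGraph V) [DecidableRel G.Adj] (q : ℕ) :
    Matrix (PColoring G q) (PColoring G q) ℝ :=
  fun σ τ => (((univ : Finset (V × Fin q)).filter (fun x => move G σ x.1 x.2 = τ)).card : ℝ) /
    ((Fintype.card V : ℝ) * (q : ℝ))

/-- Total variation distance between the law after `t` steps from `σ` and the uniform law. -/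
noncomputable def tvDist (G : SimpleGraph V) [DecidableRel G.Adj] (q t : ℕ)
    (σ : PColoring G q) : ℝ :=
  (1 / 2) * ∑ τ : PColoring G q,
    |(glauber G q ^ t) σ τ - 1 / (Fintype.card (PColoring G q) : ℝ)|

/-- `t` is the mixing time `t_G(q)`: the least time at which the worst-case distance is at
most `1/e`. -/
def IsMixingTime (G : SimpleGraph V) [DecidableRel G.Adj] (q t : ℕ) : Prop :=
  IsLeast {s : ℕ | ∀ σ : PColoring G q, tvDist G q s σ ≤ 1 / Real.exp 1} t

end Defs

section Basic

variable {V : Type} [Fintype V] [DecidableEq V] (G : SimpleGraph V) [DecidableRel G.Adj] {q : ℕ}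

lemma update_proper_iff (σ : PColoring G q) (v : V) (c : Fin q) :
    (∀ u w, G.Adj u w → Function.update σ.1 v c u ≠ Function.update σ.1 v c w) ↔
      ∀ u, G.Adj v u → σ.1 u ≠ c := by
  constructor
  · intro h u hu
    have := h v u hu
    rw [Function.update_self, Function.update_of_ne (G.ne_of_adj hu).symm] at this
    exact fun h => this h.symm
  · intro h u w huw
    by_cases hu : u = v
    · subst hu
      rw [Function.update_self, Function.update_of_ne (G.ne_of_adj huw).symm]
      exact fun h' => h w huw h'.symm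
    · by_cases hw : w = v
      · subst hw
        rw [Function.update_self, Function.update_of_ne hu]
        exact h u huw.symm
      · rw [Function.update_of_ne hu, Function.update_of_ne hw]
        exact σ.2 u w huw

lemma move_val_ok (σ : PColoring G q) (v : V) (c : Fin q) (h : ∀ u, G.Adj v u → σ.1 u ≠ c) :
    (move G σ v c).1 = Function.update σ.1 v c := by
  unfold move
  rw [dif_pos ((update_proper_iff G σ v c).2 h)]

lemma move_bad (σ : PColoring G q) (v : V) (c : Fin q) (h : ¬ ∀ u, G.Adj v u → σ.1 u ≠ c) :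
    move G σ v c = σ := by
  unfold move
  rw [dif_neg (fun h' => h ((update_proper_iff G σ v c).1 h'))]

lemma move_val_ne (σ : PColoring G q) (v : V) (c : Fin q) {u : V} (hu : u ≠ v) :
    (move G σ v c).1 u = σ.1 u := by
  by_cases h : ∀ u, G.Adj v u → σ.1 u ≠ c
  · rw [move_val_ok G σ v c h, Function.update_of_ne hu]
  · rw [move_bad G σ v c h]

/-- single-site kernel -/
noncomputable def K (v : V) (σ τ : PColoring G q) : ℝ :=
  (((univ : Finset (Fin q)).filter (fun c => move G σ v c = τ)).card : ℝ) / (q : ℝ)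

lemma K_nonneg (v : V) (σ τ : PColoring G q) : 0 ≤ K G v σ τ := by
  unfold K; positivity

lemma K_sum (v : V) (σ : PColoring G q) (g : PColoring G q → ℝ) :
    ∑ τ, K G v σ τ * g τ = (1 / (q : ℝ)) * ∑ c : Fin q, g (move G σ v c) := by
  have h1 : ∀ τ, K G v σ τ * g τ =
      (1 / (q:ℝ)) * ∑ c : Fin q, if move G σ v c = τ then g τ else 0 := by
    intro τ
    unfold K
    rw [Finset.card_filter, Nat.cast_sum]
    rw [div_mul_eq_mul_div, Finset.sum_mul, one_div_mul_eq_div]
    congr 1
    apply Finset.sum_congr rfl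
    intro c _
    split_ifs <;> simp
  simp_rw [h1]
  rw [← Finset.mul_sum, Finset.sum_comm]
  congr 1
  apply Finset.sum_congr rfl
  intro c _
  simp

lemma glauber_eq (σ τ : PColoring G q) :
    glauber G q σ τ = (1 / (Fintype.card V : ℝ)) * ∑ v, K G v σ τ := by
  unfold glauber K
  rw [← Finset.sum_div]
  rw [Finset.card_filter, Nat.cast_sum]
  rw [← Finset.univ_product_univ, Finset.sum_product]
  simp_rw [Finset.card_filter, Nat.cast_sum]
  rw [one_div_mul_eq_div, div_div, mul_comm]

lemma K_symm (v : V) (σ τ : PColoring G q) : K G v σ τ = K G v τ σ := by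
  by_cases hst : σ = τ
  · rw [hst]
  unfold K
  congr 2
  have key : ∀ (σ τ : PColoring G q), σ ≠ τ → ∀ c, (move G σ v c = τ ↔
      (∀ u, u ≠ v → σ.1 u = τ.1 u) ∧ c = τ.1 v) := by
    intro σ τ hst c
    constructor
    · intro h
      constructor
      · intro u hu
        rw [← h, move_val_ne G σ v c hu]
      · by_cases hok : ∀ u, G.Adj v u → σ.1 u ≠ c
        · rw [← h, move_val_ok G σ v c hok, Function.update_self]
        · exact absurd (by rw [← h, move_bad G σ v c hok]) hst
    · rintro ⟨h1, h2⟩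
      have hok : ∀ u, G.Adj v u → σ.1 u ≠ c := by
        intro u hu
        rw [h1 u (G.ne_of_adj hu).symm, h2]
        exact fun h => τ.2 v u hu h.symm
      apply Subtype.ext
      rw [move_val_ok G σ v c hok]
      funext u
      by_cases hu : u = v
      · subst hu; rw [Function.update_self, h2]
      · rw [Function.update_of_ne hu, h1 u hu]
  by_cases hag : ∀ u, u ≠ v → σ.1 u = τ.1 u
  · have h1 : ((univ : Finset (Fin q)).filter (fun c => move G σ v c = τ)) = {τ.1 v} := by
      ext c
      simp only [Finset.mem_filter, Finset.mem_univ, true_and, Finset.mem_singleton]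
      rw [key σ τ hst c]
      exact ⟨fun h => h.2, fun h => ⟨hag, h⟩⟩
    have h2 : ((univ : Finset (Fin q)).filter (fun c => move G τ v c = σ)) = {σ.1 v} := by
      ext c
      simp only [Finset.mem_filter, Finset.mem_univ, true_and, Finset.mem_singleton]
      rw [key τ σ (Ne.symm hst) c]
      exact ⟨fun h => h.2, fun h => ⟨fun u hu => (hag u hu).symm, h⟩⟩
    rw [h1, h2, Finset.card_singleton, Finset.card_singleton]
  · have h1 : ((univ : Finset (Fin q)).filter (fun c => move G σ v c = τ)) = ∅ := by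
      ext c
      simp only [Finset.mem_filter, Finset.mem_univ, true_and, Finset.notMem_empty, iff_false]
      rw [key σ τ hst c]
      exact fun h => hag h.1
    have h2 : ((univ : Finset (Fin q)).filter (fun c => move G τ v c = σ)) = ∅ := by
      ext c
      simp only [Finset.mem_filter, Finset.mem_univ, true_and, Finset.notMem_empty, iff_false]
      rw [key τ σ (Ne.symm hst) c]
      exact fun h => hag (fun u hu => (h.1 u hu).symm)
    rw [h1, h2]

end Basic


section Coupling

variable {V : Type} [Fintype V] [DecidableEq V] (G : SimpleGraph V) [DecidableRel G.Adj] {q : ℕ}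

/-- law after updating along the list `w` (latest update first) -/
noncomputable def mu (σ : PColoring G q) : List V → PColoring G q → ℝ
  | [] => fun τ => if σ = τ then 1 else 0
  | v :: w => fun τ => ∑ ρ, mu σ w ρ * K G v ρ τ

/-- one-step coupling operator -/
noncomputable def T (v : V) (F : PColoring G q → PColoring G q → ℝ) :
    PColoring G q → PColoring G q → ℝ :=
  fun x y => (1 / (q : ℝ)) * ∑ c : Fin q, F (move G x v c) (move G y v c)

/-- coupling operator along a list -/
noncomputable def C : List V → (PColoring G q → PColoring G q → ℝ) →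
    PColoring G q → PColoring G q → ℝ
  | [], F => F
  | v :: w, F => C w (T G v F)

lemma T_mono (v : V) {F F' : PColoring G q → PColoring G q → ℝ} (h : ∀ x y, F x y ≤ F' x y) :
    ∀ x y, T G v F x y ≤ T G v F' x y := by
  intro x y
  unfold T
  apply mul_le_mul_of_nonneg_left _ (by positivity)
  exact Finset.sum_le_sum (fun c _ => h _ _)

lemma C_mono (w : List V) : ∀ {F F' : PColoring G q → PColoring G q → ℝ},
    (∀ x y, F x y ≤ F' x y) → ∀ x y, C G w F x y ≤ C G w F' x y := by
  induction w with
  | nil => intro F F' h; exact h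
  | cons v w ih => intro F F' h; exact ih (T_mono G v h)

lemma C_sum {ι : Type} (s : Finset ι) (w : List V) :
    ∀ (a : ι → ℝ) (F : ι → PColoring G q → PColoring G q → ℝ) (x y : PColoring G q),
    C G w (fun x y => ∑ i ∈ s, a i * F i x y) x y = ∑ i ∈ s, a i * C G w (F i) x y := by
  induction w with
  | nil => intro a F x y; rfl
  | cons v w ih =>
    intro a F x y
    change C G w (T G v (fun x y => ∑ i ∈ s, a i * F i x y)) x y = _
    have : T G v (fun x y => ∑ i ∈ s, a i * F i x y) =
        fun x y => ∑ i ∈ s, a i * T G v (F i) x y := by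
      funext x y
      unfold T
      rw [Finset.sum_comm, Finset.mul_sum]
      apply Finset.sum_congr rfl
      intro i _
      rw [← Finset.mul_sum]; ring
    rw [this, ih]
    rfl

lemma C_left (w : List V) : ∀ (g : PColoring G q → ℝ) (x y : PColoring G q),
    C G w (fun x _ => g x) x y = ∑ τ, mu G x w τ * g τ := by
  induction w with
  | nil => intro g x y; simp [C, mu]
  | cons v w ih =>
    intro g x y
    change C G w (T G v (fun x _ => g x)) x y = _
    have : T G v (fun x (_ : PColoring G q) => g x) = fun x _ => ∑ τ, K G v x τ * g τ := by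
      funext x y
      rw [K_sum]; rfl
    rw [this, ih]
    simp only [mu]
    simp_rw [Finset.mul_sum, Finset.sum_mul]
    rw [Finset.sum_comm]
    apply Finset.sum_congr rfl; intro τ _
    apply Finset.sum_congr rfl; intro ρ _
    ring

lemma C_right (w : List V) : ∀ (g : PColoring G q → ℝ) (x y : PColoring G q),
    C G w (fun _ y => g y) x y = ∑ τ, mu G y w τ * g τ := by
  induction w with
  | nil => intro g x y; simp [C, mu]
  | cons v w ih =>
    intro g x y
    change C G w (T G v (fun _ y => g y)) x y = _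
    have : T G v (fun (_ : PColoring G q) y => g y) = fun _ y => ∑ τ, K G v y τ * g τ := by
      funext x y
      rw [K_sum]; rfl
    rw [this, ih]
    simp only [mu]
    simp_rw [Finset.mul_sum, Finset.sum_mul]
    rw [Finset.sum_comm]
    apply Finset.sum_congr rfl; intro τ _
    apply Finset.sum_congr rfl; intro ρ _
    ring

/-- disagreement indicator at `u` -/
noncomputable def dis (u : V) (x y : PColoring G q) : ℝ := if x.1 u = y.1 u then 0 else 1

lemma dis_nonneg (u : V) (x y : PColoring G q) : 0 ≤ dis G u x y := by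
  unfold dis; split_ifs <;> norm_num

lemma dis_le_one (u : V) (x y : PColoring G q) : dis G u x y ≤ 1 := by
  unfold dis; split_ifs <;> norm_num

lemma T_dis_ne (hq : 0 < q) {u v : V} (huv : u ≠ v) (x y : PColoring G q) :
    T G v (dis G u) x y = dis G u x y := by
  unfold T dis
  simp_rw [move_val_ne G _ v _ huv]
  rw [Finset.sum_const, Finset.card_univ, Fintype.card_fin, nsmul_eq_mul]
  have : (q : ℝ) ≠ 0 := by positivity
  field_simp

lemma T_dis_self {D : ℕ} (hD : ∀ v, G.degree v ≤ D) (v : V) (x y : PColoring G q) :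
    T G v (dis G v) x y ≤
      (1 / (q : ℝ)) * (D * dis G v x y + 2 * ∑ u ∈ G.neighborFinset v, dis G u x y) := by
  unfold T
  apply mul_le_mul_of_nonneg_left _ (by positivity)
  -- pointwise bound
  have hpt : ∀ c : Fin q, dis G v (move G x v c) (move G y v c) ≤
      ∑ u ∈ G.neighborFinset v, ((if x.1 u = c then dis G v x y else 0) +
        (if x.1 u = c then dis G u x y else 0) + (if y.1 u = c then dis G u x y else 0)) := by
    intro c
    have hnn : ∀ u ∈ G.neighborFinset v, 0 ≤ ((if x.1 u = c then dis G v x y else 0) +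
        (if x.1 u = c then dis G u x y else 0) + (if y.1 u = c then dis G u x y else 0)) := by
      intro u _
      have := dis_nonneg G v x y
      have := dis_nonneg G u x y
      split_ifs <;> positivity
    by_cases hx : ∀ u, G.Adj v u → x.1 u ≠ c
    · by_cases hy : ∀ u, G.Adj v u → y.1 u ≠ c
      · have : dis G v (move G x v c) (move G y v c) = 0 := by
          unfold dis
          rw [move_val_ok G x v c hx, move_val_ok G y v c hy]
          simp
        rw [this]
        exact Finset.sum_nonneg hnn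
      · push Not at hy
        obtain ⟨u, hu, huc⟩ := hy
        have hdu : dis G u x y = 1 := by
          unfold dis
          rw [if_neg]
          rw [huc]; exact hx u hu
        calc dis G v (move G x v c) (move G y v c) ≤ 1 := dis_le_one G _ _ _
          _ ≤ ((if x.1 u = c then dis G v x y else 0) +
              (if x.1 u = c then dis G u x y else 0) +
              (if y.1 u = c then dis G u x y else 0)) := by
              rw [hdu, if_neg (hx u hu), if_neg (hx u hu), if_pos huc]; norm_num
          _ ≤ _ := Finset.single_le_sum hnn (by simpa using hu)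
    · push Not at hx
      obtain ⟨u, hu, huc⟩ := hx
      by_cases hy : y.1 u = c
      · -- both blocked by u
        have h1 : move G x v c = x := move_bad G x v c (by push Not; exact ⟨u, hu, huc⟩)
        have h2 : move G y v c = y := move_bad G y v c (by push Not; exact ⟨u, hu, hy⟩)
        rw [h1, h2]
        calc dis G v x y ≤ ((if x.1 u = c then dis G v x y else 0) +
              (if x.1 u = c then dis G u x y else 0) +
              (if y.1 u = c then dis G u x y else 0)) := by
              rw [if_pos huc, if_pos huc, if_pos hy]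
              have := dis_nonneg G u x y
              linarith
          _ ≤ _ := Finset.single_le_sum hnn (by simpa using hu)
      · have hdu : dis G u x y = 1 := by
          unfold dis
          rw [if_neg]
          rw [huc]; exact fun h => hy h.symm
        calc dis G v (move G x v c) (move G y v c) ≤ 1 := dis_le_one G _ _ _
          _ ≤ ((if x.1 u = c then dis G v x y else 0) +
              (if x.1 u = c then dis G u x y else 0) +
              (if y.1 u = c then dis G u x y else 0)) := by
              rw [hdu, if_pos huc, if_pos huc, if_neg hy]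
              have := dis_nonneg G v x y
              linarith
          _ ≤ _ := Finset.single_le_sum hnn (by simpa using hu)
  calc ∑ c : Fin q, dis G v (move G x v c) (move G y v c)
      ≤ ∑ c : Fin q, ∑ u ∈ G.neighborFinset v, ((if x.1 u = c then dis G v x y else 0) +
        (if x.1 u = c then dis G u x y else 0) + (if y.1 u = c then dis G u x y else 0)) :=
        Finset.sum_le_sum (fun c _ => hpt c)
    _ = ∑ u ∈ G.neighborFinset v, (dis G v x y + dis G u x y + dis G u x y) := by
        rw [Finset.sum_comm]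
        apply Finset.sum_congr rfl
        intro u _
        rw [Finset.sum_add_distrib, Finset.sum_add_distrib]
        simp
    _ = (G.degree v : ℝ) * dis G v x y + 2 * ∑ u ∈ G.neighborFinset v, dis G u x y := by
        rw [Finset.sum_add_distrib, Finset.sum_add_distrib, Finset.sum_const,
          SimpleGraph.card_neighborFinset_eq_degree, nsmul_eq_mul]
        ring
    _ ≤ _ := by
        have h1 : (G.degree v : ℝ) ≤ D := by exact_mod_cast hD v
        have := dis_nonneg G v x y
        gcongr

/-- recursion bounding disagreement probabilities -/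
noncomputable def bvec (q D : ℕ) (b0 : V → ℝ) : List V → V → ℝ
  | [] => b0
  | v :: w => fun u => if u = v then
      (1 / (q : ℝ)) * (D * bvec q D b0 w v + 2 * ∑ z ∈ G.neighborFinset v, bvec q D b0 w z)
      else bvec q D b0 w u

lemma bvec_nonneg {D : ℕ} {b0 : V → ℝ} (h : ∀ u, 0 ≤ b0 u) (w : List V) :
    ∀ u, 0 ≤ bvec G q D b0 w u := by
  induction w with
  | nil => exact h
  | cons v w ih =>
    intro u
    simp only [bvec]
    split_ifs
    · have := ih v
      have h2 : 0 ≤ ∑ z ∈ G.neighborFinset v, bvec G q D b0 w z :=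
        Finset.sum_nonneg (fun z _ => ih z)
      positivity
    · exact ih u

lemma bvec_mono {D : ℕ} {b0 b1 : V → ℝ} (h : ∀ u, b0 u ≤ b1 u) (w : List V) :
    ∀ u, bvec G q D b0 w u ≤ bvec G q D b1 w u := by
  induction w with
  | nil => exact h
  | cons v w ih =>
    intro u
    simp only [bvec]
    split_ifs
    · have h2 : ∑ z ∈ G.neighborFinset v, bvec G q D b0 w z ≤
        ∑ z ∈ G.neighborFinset v, bvec G q D b1 w z := Finset.sum_le_sum (fun z _ => ih z)
      have := ih v
      gcongr
    · exact ih u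

lemma bvec_not_mem {D : ℕ} (b0 : V → ℝ) (w : List V) (u : V) (hu : u ∉ w) :
    bvec G q D b0 w u = b0 u := by
  induction w with
  | nil => rfl
  | cons v w ih =>
    simp only [List.mem_cons, not_or] at hu
    simp only [bvec]
    rw [if_neg hu.1, ih hu.2]

lemma C_dis_le {D : ℕ} (hD : ∀ v, G.degree v ≤ D) (hq : 0 < q) (w : List V) :
    ∀ (u : V) (x y : PColoring G q),
    C G w (dis G u) x y ≤ bvec G q D (fun z => dis G z x y) w u := by
  induction w with
  | nil => intro u x y; exact le_refl _
  | cons v w ih =>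
    intro u x y
    change C G w (T G v (dis G u)) x y ≤ _
    by_cases huv : u = v
    · subst huv
      simp only [bvec, if_true]
      have h1 := C_mono G w (T_dis_self G hD (q := q) u) x y
      refine h1.trans ?_
      -- expand C of linear combination
      have h2 : C G w (fun x y => (1 / (q : ℝ)) * ((D:ℝ) * dis G u x y +
          2 * ∑ z ∈ G.neighborFinset u, dis G z x y)) x y =
          (1 / (q:ℝ)) * ((D:ℝ) * C G w (dis G u) x y +
          2 * ∑ z ∈ G.neighborFinset u, C G w (dis G z) x y) := by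
        have e1 : (fun x y : PColoring G q => (1 / (q : ℝ)) * ((D:ℝ) * dis G u x y +
          2 * ∑ z ∈ G.neighborFinset u, dis G z x y)) =
          fun x y => ∑ i ∈ (univ : Finset (Option V)),
            (match i with
              | none => (D : ℝ) / q
              | some z => if z ∈ G.neighborFinset u then 2 / (q:ℝ) else 0) *
            (match i with
              | none => dis G u x y
              | some z => dis G z x y) := by
          funext x y
          rw [Fintype.sum_option]
          simp only [ite_mul, zero_mul]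
          rw [← Finset.sum_filter, Finset.filter_mem_eq_inter, Finset.univ_inter,
            ← Finset.mul_sum]
          ring
        have e2 := C_sum G (univ : Finset (Option V)) w (fun i => (match i with
              | none => (D : ℝ) / q
              | some z => if z ∈ G.neighborFinset u then 2 / (q:ℝ) else 0))
              (fun i x y => (match i with
              | none => dis G u x y
              | some z => dis G z x y)) x y
        rw [e1]
        refine e2.trans ?_
        rw [Fintype.sum_option]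
        simp only [ite_mul, zero_mul]
        rw [← Finset.sum_filter, Finset.filter_mem_eq_inter, Finset.univ_inter,
            ← Finset.mul_sum]
        ring
      rw [h2]
      have h3 : ∑ z ∈ G.neighborFinset u, C G w (dis G z) x y ≤
          ∑ z ∈ G.neighborFinset u, bvec G q D (fun z => dis G z x y) w z :=
        Finset.sum_le_sum (fun z _ => ih z x y)
      have h4 := ih u x y
      gcongr
    · simp only [bvec, if_neg huv]
      have : T G v (dis G u) = (dis G u : PColoring G q → PColoring G q → ℝ) := by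
        funext x y
        exact T_dis_ne G hq huv x y
      rw [this]
      exact ih u x y

lemma mu_nonneg (σ : PColoring G q) (w : List V) : ∀ τ, 0 ≤ mu G σ w τ := by
  induction w with
  | nil => intro τ; simp only [mu]; split_ifs <;> norm_num
  | cons v w ih =>
    intro τ
    simp only [mu]
    exact Finset.sum_nonneg (fun ρ _ => mul_nonneg (ih ρ) (K_nonneg G v ρ τ))

lemma mu_sum (hq : 0 < q) (σ : PColoring G q) (w : List V) : ∑ τ, mu G σ w τ = 1 := by
  induction w with
  | nil => simp [mu]
  | cons v w ih =>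
    simp only [mu]
    rw [Finset.sum_comm]
    simp_rw [← Finset.mul_sum]
    have : ∀ ρ : PColoring G q, ∑ τ, K G v ρ τ = 1 := by
      intro ρ
      have := K_sum G v ρ (fun _ => 1)
      simp only [mul_one, Finset.sum_const, Finset.card_univ, Fintype.card_fin,
        nsmul_eq_mul] at this
      rw [this]
      have : (q : ℝ) ≠ 0 := by positivity
      field_simp
    simp_rw [this, mul_one]
    exact ih


lemma C_add (w : List V) : ∀ (F F' : PColoring G q → PColoring G q → ℝ) (x y : PColoring G q),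
    C G w (fun x y => F x y + F' x y) x y = C G w F x y + C G w F' x y := by
  induction w with
  | nil => intro F F' x y; rfl
  | cons v w ih =>
    intro F F' x y
    change C G w (T G v (fun x y => F x y + F' x y)) x y = _
    have : T G v (fun x y => F x y + F' x y) = fun x y => T G v F x y + T G v F' x y := by
      funext x y
      unfold T
      rw [Finset.sum_add_distrib, mul_add]
    rw [this, ih]
    rfl

lemma mu_l1 (w : List V) (x y : PColoring G q) :
    ∑ τ, |mu G x w τ - mu G y w τ| ≤ 2 * ∑ u, C G w (dis G u) x y := by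
  set g : PColoring G q → PColoring G q → PColoring G q → ℝ :=
    fun τ x y => |(if x = τ then (1:ℝ) else 0) - (if y = τ then (1:ℝ) else 0)| with hg
  have hL : ∀ τ x y, C G w (fun x (_ : PColoring G q) => if x = τ then (1:ℝ) else 0) x y
      = mu G x w τ := by
    intro τ x y
    rw [C_left]; simp
  have hR : ∀ τ x y, C G w (fun (_ : PColoring G q) y => if y = τ then (1:ℝ) else 0) x y
      = mu G y w τ := by
    intro τ x y
    rw [C_right]; simp
  have h1 : ∀ τ, |mu G x w τ - mu G y w τ| ≤ C G w (g τ) x y := by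
    intro τ
    rw [abs_le]
    constructor
    · have h := C_mono G w (F := fun _ y => if y = τ then (1:ℝ) else 0)
        (F' := fun x y => (if x = τ then (1:ℝ) else 0) + g τ x y) (by
          intro x y
          simp only [hg]
          have := neg_abs_le ((if x = τ then (1:ℝ) else 0) - (if y = τ then (1:ℝ) else 0))
          linarith) x y
      rw [C_add, hL, hR] at h
      linarith
    · have h := C_mono G w (F := fun x _ => if x = τ then (1:ℝ) else 0)
        (F' := fun x y => (if y = τ then (1:ℝ) else 0) + g τ x y) (by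
          intro x y
          simp only [hg]
          have := le_abs_self ((if x = τ then (1:ℝ) else 0) - (if y = τ then (1:ℝ) else 0))
          linarith) x y
      rw [C_add, hL, hR] at h
      linarith
  calc ∑ τ, |mu G x w τ - mu G y w τ| ≤ ∑ τ, C G w (g τ) x y :=
        Finset.sum_le_sum (fun τ _ => h1 τ)
    _ = ∑ τ, (1:ℝ) * C G w (g τ) x y := by simp
    _ = C G w (fun x y => ∑ τ, (1:ℝ) * g τ x y) x y := (C_sum G univ w (fun _ => 1) g x y).symm
    _ ≤ C G w (fun x y => ∑ u, (2:ℝ) * dis G u x y) x y := by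
        apply C_mono
        intro x y
        simp only [one_mul]
        by_cases hxy : x = y
        · subst hxy
          simp only [hg, sub_self, abs_zero, Finset.sum_const_zero]
          exact Finset.sum_nonneg (fun u _ => mul_nonneg (by norm_num) (dis_nonneg G u _ _))
        · have h2 : ∑ τ, g τ x y ≤ 2 := by
            calc ∑ τ, g τ x y ≤ ∑ τ, ((if x = τ then (1:ℝ) else 0) +
                  (if y = τ then (1:ℝ) else 0)) := by
                  apply Finset.sum_le_sum
                  intro τ _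
                  simp only [hg]
                  split_ifs <;> norm_num
              _ = 2 := by
                  rw [Finset.sum_add_distrib]; simp; norm_num
          have h3 : ∃ u, x.1 u ≠ y.1 u := by
            by_contra hcon
            push Not at hcon
            exact hxy (Subtype.ext (funext hcon))
          obtain ⟨u, hu⟩ := h3
          refine h2.trans ?_
          calc (2:ℝ) = 2 * dis G u x y := by unfold dis; rw [if_neg hu]; norm_num
            _ ≤ _ := Finset.single_le_sum (f := fun u => (2:ℝ) * dis G u x y)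
                (fun u _ => mul_nonneg (by norm_num) (dis_nonneg G u _ _)) (Finset.mem_univ u)
    _ = ∑ u, (2:ℝ) * C G w (dis G u) x y := C_sum G univ w (fun _ => 2) (fun u => dis G u) x y
    _ = _ := by rw [Finset.mul_sum]

/-- colourings agreeing with `σ` on `S` -/
def cyl (σ : PColoring G q) (S : Finset V) : Finset (PColoring G q) :=
  univ.filter (fun τ => ∀ u ∈ S, τ.1 u = σ.1 u)

lemma mem_cyl (σ τ : PColoring G q) (S : Finset V) :
    τ ∈ cyl G σ S ↔ ∀ u ∈ S, τ.1 u = σ.1 u := by
  simp [cyl]

lemma self_mem_cyl (σ : PColoring G q) (S : Finset V) : σ ∈ cyl G σ S := by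
  simp [cyl]

lemma cyl_card_pos (σ : PColoring G q) (S : Finset V) : (0:ℝ) < (cyl G σ S).card := by
  exact_mod_cast Finset.card_pos.2 ⟨σ, self_mem_cyl G σ S⟩

/-- uniform law on the cylinder -/
noncomputable def piU (σ : PColoring G q) (S : Finset V) (τ : PColoring G q) : ℝ :=
  if τ ∈ cyl G σ S then 1 / ((cyl G σ S).card : ℝ) else 0

lemma piU_nonneg (σ : PColoring G q) (S : Finset V) (τ : PColoring G q) : 0 ≤ piU G σ S τ := by
  unfold piU; split_ifs <;> positivity

lemma piU_sum (σ : PColoring G q) (S : Finset V) : ∑ τ, piU G σ S τ = 1 := by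
  unfold piU
  rw [← Finset.sum_filter, Finset.filter_mem_eq_inter, Finset.univ_inter, Finset.sum_const,
    nsmul_eq_mul]
  have := cyl_card_pos G σ S
  field_simp

lemma K_sum_one (hq : 0 < q) (v : V) (ρ : PColoring G q) : ∑ τ, K G v ρ τ = 1 := by
  have := K_sum G v ρ (fun _ => 1)
  simp only [mul_one, Finset.sum_const, Finset.card_univ, Fintype.card_fin,
    nsmul_eq_mul] at this
  rw [this]
  have : (q : ℝ) ≠ 0 := by positivity
  field_simp

lemma K_ne_zero {v : V} {ρ τ : PColoring G q} (h : K G v ρ τ ≠ 0) :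
    ∀ u, u ≠ v → ρ.1 u = τ.1 u := by
  unfold K at h
  have h1 : ((univ : Finset (Fin q)).filter (fun c => move G ρ v c = τ)).card ≠ 0 := by
    intro h0
    rw [h0] at h
    simp at h
  rw [Finset.card_ne_zero] at h1
  obtain ⟨c, hc⟩ := h1
  simp only [Finset.mem_filter, Finset.mem_univ, true_and] at hc
  intro u hu
  rw [← hc, move_val_ne G ρ v c hu]

lemma piU_K (hq : 0 < q) (σ : PColoring G q) (S : Finset V) {v : V} (hv : v ∉ S)
    (τ : PColoring G q) : ∑ ρ, piU G σ S ρ * K G v ρ τ = piU G σ S τ := by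
  have h1 : ∀ ρ, piU G σ S ρ * K G v ρ τ = piU G σ S τ * K G v τ ρ := by
    intro ρ
    rw [K_symm G v τ ρ]
    by_cases hK : K G v ρ τ = 0
    · rw [hK]; ring
    · have hag := K_ne_zero G hK
      congr 1
      unfold piU
      have : ρ ∈ cyl G σ S ↔ τ ∈ cyl G σ S := by
        rw [mem_cyl, mem_cyl]
        constructor
        · intro h u hu
          rw [← hag u (fun h' => hv (h' ▸ hu))]
          exact h u hu
        · intro h u hu
          rw [hag u (fun h' => hv (h' ▸ hu))]
          exact h u hu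
      simp only [this]
  simp_rw [h1]
  rw [← Finset.mul_sum, K_sum_one G hq, mul_one]

lemma piU_mu (hq : 0 < q) (σ : PColoring G q) (S : Finset V) (w : List V)
    (hw : ∀ u ∈ S, u ∉ w) : ∀ τ, ∑ η, piU G σ S η * mu G η w τ = piU G σ S τ := by
  induction w with
  | nil => intro τ; simp [mu]
  | cons v w ih =>
    intro τ
    have hv : v ∉ S := fun h => hw v h (by simp)
    have ih' := ih (fun u hu h => hw u hu (by simp [h]))
    simp only [mu]
    simp_rw [Finset.mul_sum]
    rw [Finset.sum_comm]
    rw [← piU_K G hq σ S hv τ]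
    apply Finset.sum_congr rfl
    intro ρ _
    rw [← ih' ρ, Finset.sum_mul]
    apply Finset.sum_congr rfl
    intro η _
    ring

lemma key_l1 {D : ℕ} (hD : ∀ v, G.degree v ≤ D) (hq : 0 < q) (σ : PColoring G q) (S : Finset V)
    (w : List V) (hw : ∀ u ∈ S, u ∉ w) :
    ∑ τ, |mu G σ w τ - piU G σ S τ| ≤ 2 * ∑ u ∈ Sᶜ, bvec G q D (fun _ => 1) w u := by
  have h1 : ∀ τ, |mu G σ w τ - piU G σ S τ| ≤
      ∑ η, piU G σ S η * |mu G σ w τ - mu G η w τ| := by
    intro τ
    have : mu G σ w τ - piU G σ S τ = ∑ η, piU G σ S η * (mu G σ w τ - mu G η w τ) := by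
      simp_rw [mul_sub]
      rw [Finset.sum_sub_distrib, ← Finset.sum_mul, piU_sum, piU_mu G hq σ S w hw, one_mul]
    rw [this]
    refine (Finset.abs_sum_le_sum_abs _ _).trans ?_
    apply Finset.sum_le_sum
    intro η _
    rw [abs_mul, abs_of_nonneg (piU_nonneg G σ S η)]
  calc ∑ τ, |mu G σ w τ - piU G σ S τ|
      ≤ ∑ τ, ∑ η, piU G σ S η * |mu G σ w τ - mu G η w τ| :=
        Finset.sum_le_sum (fun τ _ => h1 τ)
    _ = ∑ η, piU G σ S η * ∑ τ, |mu G σ w τ - mu G η w τ| := by
        rw [Finset.sum_comm]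
        simp_rw [Finset.mul_sum]
    _ ≤ ∑ η, piU G σ S η * (2 * ∑ u ∈ Sᶜ, bvec G q D (fun _ => 1) w u) := by
        apply Finset.sum_le_sum
        intro η _
        by_cases hη : η ∈ cyl G σ S
        · apply mul_le_mul_of_nonneg_left _ (piU_nonneg G σ S η)
          refine (mu_l1 G w σ η).trans ?_
          apply mul_le_mul_of_nonneg_left _ (by norm_num)
          rw [← Finset.sum_compl_add_sum S]
          have h2 : ∑ u ∈ S, C G w (dis G u) σ η ≤ 0 := by
            apply Finset.sum_nonpos
            intro u hu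
            refine (C_dis_le G hD hq w u σ η).trans ?_
            rw [bvec_not_mem G _ w u (hw u hu)]
            unfold dis
            rw [if_pos]
            exact ((mem_cyl G σ η S).1 hη u hu).symm
          have h3 : ∑ u ∈ Sᶜ, C G w (dis G u) σ η ≤
              ∑ u ∈ Sᶜ, bvec G q D (fun _ => 1) w u := by
            apply Finset.sum_le_sum
            intro u _
            exact (C_dis_le G hD hq w u σ η).trans
              (bvec_mono G (fun z => dis_le_one G z σ η) w u)
          linarith
        · unfold piU; rw [if_neg hη]; simp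
    _ = _ := by rw [← Finset.sum_mul, piU_sum, one_mul]

end Coupling

section Avg

variable {V : Type} [Fintype V] [DecidableEq V]

/-- average over all lists of length `t` -/
noncomputable def avg : ℕ → (List V → ℝ) → ℝ
  | 0, F => F []
  | t + 1, F => avg t (fun w => (1 / (Fintype.card V : ℝ)) * ∑ v, F (v :: w))

lemma avg_mono (t : ℕ) : ∀ {F F' : List V → ℝ}, (∀ w, F w ≤ F' w) → avg t F ≤ avg t F' := by
  induction t with
  | zero => intro F F' h; exact h _
  | succ t ih =>
    intro F F' h
    apply ih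
    intro w
    apply mul_le_mul_of_nonneg_left _ (by positivity)
    exact Finset.sum_le_sum (fun v _ => h _)

lemma avg_add (t : ℕ) : ∀ (F F' : List V → ℝ), avg t (fun w => F w + F' w) =
    avg t F + avg t F' := by
  induction t with
  | zero => intro F F'; rfl
  | succ t ih =>
    intro F F'
    change avg t _ = avg t _ + avg t _
    rw [← ih]
    congr 1
    funext w
    rw [Finset.sum_add_distrib, mul_add]

lemma avg_mul (t : ℕ) (a : ℝ) : ∀ (F : List V → ℝ), avg t (fun w => a * F w) = a * avg t F := by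
  induction t with
  | zero => intro F; rfl
  | succ t ih =>
    intro F
    change avg t _ = a * avg t _
    rw [← ih]
    congr 1
    funext w
    rw [← Finset.mul_sum]; ring

lemma avg_mul' (t : ℕ) (a : ℝ) (F : List V → ℝ) : avg t (fun w => F w * a) = avg t F * a := by
  simp_rw [mul_comm _ a]
  rw [avg_mul]

lemma avg_zero_fun (t : ℕ) : avg t (fun (_ : List V) => (0:ℝ)) = 0 := by
  have := avg_mul (V := V) t 0 (fun _ => 0)
  simpa using this

lemma avg_sum {ι : Type*} (s : Finset ι) (t : ℕ) (F : ι → List V → ℝ) :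
    avg t (fun w => ∑ i ∈ s, F i w) = ∑ i ∈ s, avg t (F i) := by
  classical
  induction s using Finset.induction_on with
  | empty => simp [avg_zero_fun]
  | insert a s ha ih =>
    simp_rw [Finset.sum_insert ha]
    rw [avg_add, ih]

lemma avg_sub (t : ℕ) (F F' : List V → ℝ) : avg t (fun w => F w - F' w) =
    avg t F - avg t F' := by
  have h1 : (fun w => F w - F' w) = fun w => F w + (-1) * F' w := by funext w; ring
  rw [h1, avg_add, avg_mul]; ring

lemma avg_const [Nonempty V] (t : ℕ) (a : ℝ) : avg t (fun (_ : List V) => a) = a := by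
  induction t with
  | zero => rfl
  | succ t ih =>
    change avg t _ = a
    simp only [Finset.sum_const, Finset.card_univ, nsmul_eq_mul]
    have : (Fintype.card V : ℝ) ≠ 0 := by
      have := Fintype.card_pos (α := V)
      positivity
    have h2 : (1 / (Fintype.card V : ℝ)) * ((Fintype.card V : ℝ) * a) = a := by field_simp
    rw [h2]
    exact ih

lemma abs_avg_le (t : ℕ) (F : List V → ℝ) : |avg t F| ≤ avg t (fun w => |F w|) := by
  rw [abs_le]
  constructor
  · have h1 : avg t (fun w => (-1) * |F w|) ≤ avg t F :=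
      avg_mono t (fun w => by have := neg_abs_le (F w); linarith)
    rw [avg_mul] at h1
    linarith
  · exact avg_mono t (fun w => le_abs_self _)

/-- the average of the indicator that a set is not hit -/
lemma avg_miss [Nonempty V] (S : Finset V) (t : ℕ) :
    avg t (fun w => if (∀ u ∈ S, u ∉ w) then (1:ℝ) else 0) =
      (1 - (S.card : ℝ) / (Fintype.card V : ℝ)) ^ t := by
  induction t with
  | zero => simp [avg]
  | succ t ih =>
    change avg t _ = _
    have hn : (Fintype.card V : ℝ) ≠ 0 := by
      have := Fintype.card_pos (α := V)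
      positivity
    have h1 : (fun w : List V => (1 / (Fintype.card V : ℝ)) *
        ∑ v, (if (∀ u ∈ S, u ∉ v :: w) then (1:ℝ) else 0)) =
        fun w => (if (∀ u ∈ S, u ∉ w) then (1:ℝ) else 0) *
          (1 - (S.card : ℝ) / (Fintype.card V : ℝ)) := by
      funext w
      by_cases hw : ∀ u ∈ S, u ∉ w
      · rw [if_pos hw]
        have h2 : ∀ v, (if (∀ u ∈ S, u ∉ v :: w) then (1:ℝ) else 0) =
            if v ∈ Sᶜ then 1 else 0 := by
          intro v
          congr 1
          simp only [List.mem_cons, not_or, Finset.mem_compl, eq_iff_iff]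
          constructor
          · intro h hv
            exact (h v hv).1 rfl
          · intro h u hu
            exact ⟨fun h' => h (h' ▸ hu), hw u hu⟩
        simp_rw [h2]
        rw [Finset.sum_ite_mem, Finset.univ_inter, Finset.sum_const, Finset.card_compl,
          nsmul_eq_mul, mul_one, one_mul, Nat.cast_sub (Finset.card_le_univ S)]
        field_simp
      · rw [if_neg hw]
        have h2 : ∀ v, (if (∀ u ∈ S, u ∉ v :: w) then (1:ℝ) else 0) = 0 := by
          intro v
          rw [if_neg]
          intro h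
          apply hw
          intro u hu
          have := h u hu
          simp only [List.mem_cons, not_or] at this
          exact this.2
        simp_rw [h2]
        simp
    rw [h1, avg_mul', ih, pow_succ]

end Avg

section Expand

variable {V : Type} [Fintype V] [DecidableEq V] (G : SimpleGraph V) [DecidableRel G.Adj] {q : ℕ}

lemma pow_eq_avg (σ : PColoring G q) (t : ℕ) (τ : PColoring G q) :
    (glauber G q ^ t) σ τ = avg t (fun w => mu G σ w τ) := by
  induction t generalizing τ with
  | zero =>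
    simp only [pow_zero, avg, mu, Matrix.one_apply]
  | succ t ih =>
    rw [pow_succ, Matrix.mul_apply]
    change _ = avg t _
    simp_rw [ih]
    have h1 : ∀ ρ, avg t (fun w => mu G σ w ρ) * glauber G q ρ τ =
        avg t (fun w => mu G σ w ρ * glauber G q ρ τ) := by
      intro ρ; rw [avg_mul']
    simp_rw [h1]
    rw [← avg_sum]
    congr 1
    funext w
    simp only [mu]
    rw [Finset.sum_comm, Finset.mul_sum]
    apply Finset.sum_congr rfl
    intro ρ _
    rw [glauber_eq, Finset.mul_sum, Finset.mul_sum, Finset.mul_sum]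
    apply Finset.sum_congr rfl
    intro v _
    ring

/-- vertices not in the list -/
def miss (w : List V) : Finset V := univ.filter (fun v => v ∉ w)

lemma mem_miss (w : List V) (v : V) : v ∈ miss w ↔ v ∉ w := by simp [miss]

lemma avg_bvec_le [Nonempty V] {D : ℕ} (hD : ∀ v, G.degree v ≤ D) (t : ℕ)
    (hq : (0:ℝ) ≤ 1 - 1 / (Fintype.card V : ℝ) + 3 * D / (q * Fintype.card V)) :
    avg t (fun w => ∑ u, bvec G q D (fun _ => 1) w u) ≤
      (Fintype.card V : ℝ) *
        (1 - 1 / (Fintype.card V : ℝ) + 3 * D / (q * Fintype.card V)) ^ t := by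
  induction t with
  | zero => simp [avg, bvec]
  | succ t ih =>
    have hn : (0:ℝ) < (Fintype.card V : ℝ) := by
      have := Fintype.card_pos (α := V)
      positivity
    set n : ℝ := (Fintype.card V : ℝ) with hndef
    set r : ℝ := (1 - 1 / n + 3 * D / (q * n)) with hr
    change avg t (fun w => (1 / n) * ∑ v, ∑ u, bvec G q D (fun _ => 1) (v :: w) u) ≤ _
    have h1 : ∀ w : List V, (1 / n) * ∑ v, ∑ u, bvec G q D (fun _ => 1) (v :: w) u ≤
        r * ∑ u, bvec G q D (fun _ => 1) w u := by
      intro w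
      set b := bvec G q D (fun _ => 1) w with hb
      have hbn : ∀ u, 0 ≤ b u := bvec_nonneg G (fun _ => by norm_num) w
      have h2 : ∀ v, ∑ u, bvec G q D (fun _ => 1) (v :: w) u =
          (∑ u, b u) - b v + (1 / (q : ℝ)) * (D * b v + 2 * ∑ z ∈ G.neighborFinset v, b z) := by
        intro v
        simp only [bvec]
        rw [← hb]
        rw [← Finset.add_sum_erase _ _ (Finset.mem_univ v),
          ← Finset.add_sum_erase (a := v) _ b (Finset.mem_univ v)]
        rw [if_pos rfl]
        have : ∑ x ∈ univ.erase v, (if x = v then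
            (1 / (q : ℝ)) * (D * b v + 2 * ∑ z ∈ G.neighborFinset v, b z) else b x) =
            ∑ x ∈ univ.erase v, b x := by
          apply Finset.sum_congr rfl
          intro x hx
          rw [if_neg (Finset.ne_of_mem_erase hx)]
        rw [this]; ring
      have h3 : ∑ v, ∑ z ∈ G.neighborFinset v, b z ≤ D * ∑ v, b v := by
        have e1 : ∑ v, ∑ z ∈ G.neighborFinset v, b z = ∑ z, (G.degree z : ℝ) * b z := by
          have : ∀ v, ∑ z ∈ G.neighborFinset v, b z = ∑ z, if G.Adj v z then b z else 0 := by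
            intro v
            rw [← Finset.sum_filter]
            congr 1
            ext z; simp
          simp_rw [this]
          rw [Finset.sum_comm]
          apply Finset.sum_congr rfl
          intro z _
          rw [← Finset.sum_filter, Finset.sum_const, nsmul_eq_mul]
          congr 2
          rw [← SimpleGraph.card_neighborFinset_eq_degree]
          congr 1
          ext v; simp [SimpleGraph.adj_comm]
        rw [e1, Finset.mul_sum]
        apply Finset.sum_le_sum
        intro z _
        apply mul_le_mul_of_nonneg_right _ (hbn z)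
        exact_mod_cast hD z
      simp_rw [h2]
      rw [Finset.sum_add_distrib, Finset.sum_sub_distrib, Finset.sum_const, Finset.card_univ,
        nsmul_eq_mul, ← Finset.mul_sum, Finset.sum_add_distrib, ← Finset.mul_sum,
        ← Finset.mul_sum, ← hndef]
      have h4 : (1 / n) * (n * ∑ u, b u - ∑ u, b u + 1 / (q:ℝ) * (D * ∑ u, b u +
          2 * ∑ v, ∑ z ∈ G.neighborFinset v, b z)) ≤
          (1 / n) * (n * ∑ u, b u - ∑ u, b u + 1 / (q:ℝ) * (D * ∑ u, b u +
          2 * (D * ∑ v, b v))) := by
        gcongr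
      refine h4.trans (le_of_eq ?_)
      rw [hr]
      by_cases hq0 : (q:ℝ) = 0
      · rw [hq0]; simp; field_simp
      · field_simp
        ring
    refine (avg_mono t h1).trans ?_
    rw [avg_mul, pow_succ]
    calc r * avg t (fun w => ∑ u, bvec G q D (fun _ => 1) w u) ≤ r * (n * r ^ t) :=
          mul_le_mul_of_nonneg_left ih hq
      _ = n * (r ^ t * r) := by ring

lemma avg_card_miss [Nonempty V] (t : ℕ) :
    avg t (fun w : List V => ((miss w).card : ℝ)) =
      (Fintype.card V : ℝ) * (1 - 1 / (Fintype.card V : ℝ)) ^ t := by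
  have h1 : (fun w : List V => ((miss w).card : ℝ)) =
      fun w => ∑ v, if (∀ u ∈ ({v} : Finset V), u ∉ w) then (1:ℝ) else 0 := by
    funext w
    unfold miss
    rw [Finset.card_filter, Nat.cast_sum]
    apply Finset.sum_congr rfl
    intro v _
    simp
  rw [h1, avg_sum]
  simp_rw [avg_miss]
  simp

/-- expected l1 distance between the conditional law and the conditional uniform law -/
lemma avg_key [Nonempty V] {D : ℕ} (hD : ∀ v, G.degree v ≤ D) (hq : 0 < q)
    (σ : PColoring G q) (t : ℕ)
    (hq2 : (0:ℝ) ≤ 1 - 1 / (Fintype.card V : ℝ) + 3 * D / (q * Fintype.card V)) :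
    avg t (fun w => ∑ τ, |mu G σ w τ - piU G σ (miss w) τ|) ≤
      2 * ((Fintype.card V : ℝ) *
        (1 - 1 / (Fintype.card V : ℝ) + 3 * D / (q * Fintype.card V)) ^ t -
        (Fintype.card V : ℝ) * (1 - 1 / (Fintype.card V : ℝ)) ^ t) := by
  have h1 : ∀ w : List V, ∑ τ, |mu G σ w τ - piU G σ (miss w) τ| ≤
      2 * (∑ u, bvec G q D (fun _ => 1) w u - ((miss w).card : ℝ)) := by
    intro w
    refine (key_l1 G hD hq σ (miss w) w (fun u hu => (mem_miss w u).1 hu)).trans ?_
    apply le_of_eq
    rw [← Finset.sum_compl_add_sum (miss w)]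
    have : ∑ u ∈ miss w, bvec G q D (fun _ => 1) w u = ((miss w).card : ℝ) := by
      rw [Finset.sum_congr rfl (fun u hu => bvec_not_mem G _ w u ((mem_miss w u).1 hu))]
      simp
    rw [this]; ring
  refine (avg_mono t h1).trans ?_
  rw [avg_mul, avg_sub, avg_card_miss]
  have := avg_bvec_le G hD t hq2
  linarith

end Expand

section Count

variable {V : Type} [Fintype V] [DecidableEq V] (G : SimpleGraph V) [DecidableRel G.Adj] {q : ℕ}

/-- number of free colours -/
lemma card_ok {D : ℕ} (hD : ∀ v, G.degree v ≤ D) (τ : PColoring G q) (v : V) :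
    (q : ℝ) - D ≤ (((univ : Finset (Fin q)).filter (fun c => ∀ u, G.Adj v u → τ.1 u ≠ c)).card : ℝ) := by
  have h1 : ((univ : Finset (Fin q)).filter (fun c => ∀ u, G.Adj v u → τ.1 u ≠ c)) =
      ((G.neighborFinset v).image τ.1)ᶜ := by
    ext c
    simp only [Finset.mem_filter, Finset.mem_univ, true_and, Finset.mem_compl, Finset.mem_image,
      SimpleGraph.mem_neighborFinset, not_exists, not_and]
  rw [h1, Finset.card_compl, Fintype.card_fin, Nat.cast_sub]
  · have h2 : ((G.neighborFinset v).image τ.1).card ≤ D := by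
      refine Finset.card_image_le.trans ?_
      rw [SimpleGraph.card_neighborFinset_eq_degree]
      exact hD v
    have : (((G.neighborFinset v).image τ.1).card : ℝ) ≤ D := by exact_mod_cast h2
    linarith
  · calc ((G.neighborFinset v).image τ.1).card ≤ Fintype.card (Fin q) := Finset.card_le_univ _
      _ = q := Fintype.card_fin q

/-- Claim A -/
lemma card_fix {D : ℕ} (hD : ∀ v, G.degree v ≤ D) (σ : PColoring G q) (S : Finset V) {y : V}
    (hy : y ∉ S) (c : Fin q) :
    (((cyl G σ S).filter (fun τ => τ.1 y = c)).card : ℝ) * ((q : ℝ) - D) ≤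
      ((cyl G σ S).card : ℝ) := by
  set B := (cyl G σ S).filter (fun τ => τ.1 y = c) with hB
  have h1 : (B.card : ℝ) * ((q : ℝ) - D) ≤
      ∑ τ ∈ B, (((univ : Finset (Fin q)).filter
        (fun c => ∀ u, G.Adj y u → τ.1 u ≠ c)).card : ℝ) := by
    rw [← nsmul_eq_mul]
    exact Finset.card_nsmul_le_sum _ _ _ (fun τ _ => card_ok G hD τ y)
  refine h1.trans ?_
  have h2 : ∑ τ ∈ B, ((univ : Finset (Fin q)).filter
        (fun c => ∀ u, G.Adj y u → τ.1 u ≠ c)).card ≤ (cyl G σ S).card := by
    rw [← Finset.card_sigma]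
    apply Finset.card_le_card_of_injOn (fun p => move G p.1 y p.2)
    · rintro ⟨τ, c'⟩ hp
      simp only [Finset.coe_sigma, Set.mem_sigma_iff, Finset.mem_coe, hB, Finset.mem_filter,
        Finset.mem_univ, true_and] at hp
      simp only [Finset.mem_coe, mem_cyl]
      intro u hu
      rw [move_val_ne G τ y c' (fun h => hy (h ▸ hu))]
      exact (mem_cyl G σ τ S).1 hp.1.1 u hu
    · rintro ⟨τ, c'⟩ hp ⟨τ', c''⟩ hp' heq
      simp only [Finset.coe_sigma, Set.mem_sigma_iff, Finset.mem_coe, hB, Finset.mem_filter,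
        Finset.mem_univ, true_and] at hp hp' heq
      have e1 : (move G τ y c').1 y = c' := by rw [move_val_ok G τ y c' hp.2]; simp
      have e2 : (move G τ' y c'').1 y = c'' := by rw [move_val_ok G τ' y c'' hp'.2]; simp
      have hc : c' = c'' := by rw [← e1, ← e2, heq]
      have hτ : τ = τ' := by
        apply Subtype.ext
        funext u
        by_cases hu : u = y
        · subst hu; rw [hp.1.2, hp'.1.2]
        · rw [← move_val_ne G τ y c' hu, ← move_val_ne G τ' y c'' hu, heq]
      subst hc; subst hτ; rfl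
  exact_mod_cast h2

lemma cyl_insert (σ : PColoring G q) (S : Finset V) (u : V) :
    cyl G σ (insert u S) = (cyl G σ S).filter (fun τ => τ.1 u = σ.1 u) := by
  ext τ
  simp only [mem_cyl, Finset.mem_filter, Finset.mem_insert]
  constructor
  · intro h
    exact ⟨fun v hv => h v (Or.inr hv), h u (Or.inl rfl)⟩
  · rintro ⟨h1, h2⟩ v (hv | hv)
    · subst hv; exact h2
    · exact h1 v hv

lemma claimA {D : ℕ} (hD : ∀ v, G.degree v ≤ D) (σ : PColoring G q) (S : Finset V) {y : V}
    (hy : y ∉ S) :
    ((cyl G σ (insert y S)).card : ℝ) * ((q : ℝ) - D) ≤ ((cyl G σ S).card : ℝ) := by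
  rw [cyl_insert]
  exact card_fix G hD σ S hy (σ.1 y)

lemma claimB {D : ℕ} (hD : ∀ v, G.degree v ≤ D) (σ : PColoring G q) (S : Finset V) {u : V}
    (hqD : (D : ℝ) < q) :
    ((cyl G σ S).card : ℝ) * ((q : ℝ) - 2 * D) ≤
      q * ((q : ℝ) - D) * ((cyl G σ (insert u S)).card : ℝ) := by
  set N : ℝ := ((cyl G σ S).card : ℝ) with hN
  set Good := (cyl G σ S).filter (fun τ => ∀ y, G.Adj u y → τ.1 y ≠ σ.1 u) with hGood
  set Bad := (cyl G σ S).filter (fun τ => ¬ ∀ y, G.Adj u y → τ.1 y ≠ σ.1 u) with hBad
  have hsum : N = (Good.card : ℝ) + (Bad.card : ℝ) := by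
    rw [hN, hGood, hBad]
    exact_mod_cast (Finset.card_filter_add_card_filter_not (s := cyl G σ S)
      (fun τ => ∀ y, G.Adj u y → τ.1 y ≠ σ.1 u)).symm
  have hG : (Good.card : ℝ) ≤ q * ((cyl G σ (insert u S)).card : ℝ) := by
    have : Good.card ≤ (cyl G σ (insert u S) ×ˢ (univ : Finset (Fin q))).card := by
      apply Finset.card_le_card_of_injOn (fun τ => (move G τ u (σ.1 u), τ.1 u))
      · intro τ hτ
        simp only [hGood, Finset.coe_filter, Set.mem_ofPred_eq] at hτ
        simp only [Finset.coe_product, Finset.coe_univ, Set.mem_prod, Finset.mem_coe,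
          Set.mem_univ, and_true, mem_cyl]
        intro v hv
        rw [move_val_ok G τ u _ hτ.2]
        by_cases hvu : v = u
        · subst hvu; simp
        · rw [Function.update_of_ne hvu]
          rcases Finset.mem_insert.1 hv with h | h
          · exact absurd h hvu
          · exact (mem_cyl G σ τ S).1 hτ.1 v h
      · intro τ hτ τ' hτ' heq
        simp only [hGood, Finset.coe_filter, Set.mem_ofPred_eq] at hτ hτ'
        simp only [Prod.mk.injEq] at heq
        apply Subtype.ext
        funext v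
        by_cases hvu : v = u
        · subst hvu; exact heq.2
        · rw [← move_val_ne G τ u (σ.1 u) hvu, ← move_val_ne G τ' u (σ.1 u) hvu, heq.1]
    rw [Finset.card_product, Finset.card_univ, Fintype.card_fin] at this
    calc (Good.card : ℝ) ≤ (((cyl G σ (insert u S)).card * q : ℕ) : ℝ) := by exact_mod_cast this
      _ = _ := by push_cast; ring
  have hBd : (Bad.card : ℝ) * ((q : ℝ) - D) ≤ D * N := by
    have h1 : Bad ⊆ (G.neighborFinset u).biUnion
        (fun y => (cyl G σ S).filter (fun τ => τ.1 y = σ.1 u)) := by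
      intro τ hτ
      simp only [hBad, Finset.mem_filter] at hτ
      obtain ⟨h1, h2⟩ := hτ
      push Not at h2
      obtain ⟨y, hy, hyc⟩ := h2
      simp only [Finset.mem_biUnion, SimpleGraph.mem_neighborFinset, Finset.mem_filter]
      exact ⟨y, hy, h1, hyc⟩
    have h2 : (Bad.card : ℝ) ≤ ∑ y ∈ G.neighborFinset u,
        (((cyl G σ S).filter (fun τ => τ.1 y = σ.1 u)).card : ℝ) := by
      exact_mod_cast (Finset.card_le_card h1).trans Finset.card_biUnion_le
    have h3 : ∀ y ∈ G.neighborFinset u,
        (((cyl G σ S).filter (fun τ => τ.1 y = σ.1 u)).card : ℝ) * ((q : ℝ) - D) ≤ N := by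
      intro y hy
      by_cases hyS : y ∈ S
      · have : (cyl G σ S).filter (fun τ => τ.1 y = σ.1 u) = ∅ := by
          rw [Finset.filter_eq_empty_iff]
          intro τ hτ
          rw [(mem_cyl G σ τ S).1 hτ y hyS]
          rw [SimpleGraph.mem_neighborFinset] at hy
          exact (σ.2 u y hy).symm
        rw [this]
        simp [hN]
      · exact card_fix G hD σ S hyS (σ.1 u)
    calc (Bad.card : ℝ) * ((q : ℝ) - D) ≤ (∑ y ∈ G.neighborFinset u,
        (((cyl G σ S).filter (fun τ => τ.1 y = σ.1 u)).card : ℝ)) * ((q : ℝ) - D) :=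
          mul_le_mul_of_nonneg_right h2 (by linarith)
      _ = ∑ y ∈ G.neighborFinset u,
        (((cyl G σ S).filter (fun τ => τ.1 y = σ.1 u)).card : ℝ) * ((q : ℝ) - D) := by
          rw [Finset.sum_mul]
      _ ≤ ∑ y ∈ G.neighborFinset u, N := Finset.sum_le_sum h3
      _ = (G.degree u : ℝ) * N := by
          rw [Finset.sum_const, SimpleGraph.card_neighborFinset_eq_degree, nsmul_eq_mul]
      _ ≤ D * N := by
          apply mul_le_mul_of_nonneg_right _ (by positivity)
          exact_mod_cast hD u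
  have h4 : (Good.card : ℝ) * ((q:ℝ) - D) ≤
      q * ((cyl G σ (insert u S)).card : ℝ) * ((q:ℝ) - D) :=
    mul_le_mul_of_nonneg_right hG (by linarith)
  have h5 : N * ((q:ℝ) - D) = (Good.card : ℝ) * ((q:ℝ) - D) + (Bad.card : ℝ) * ((q:ℝ) - D) := by
    rw [hsum]; ring
  nlinarith

/-- the correlation bound -/
lemma corr {D : ℕ} (hD : ∀ v, G.degree v ≤ D) (σ : PColoring G q) (hqD : 2 * (D : ℝ) < q)
    (U U' : Finset V) :
    ((cyl G σ ∅).card : ℝ) * ((cyl G σ (U ∪ U')).card : ℝ) ≤
      ((q : ℝ) / (q - 2 * D)) ^ U'.card * (q : ℝ) ^ (U ∩ U').card *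
        (((cyl G σ U).card : ℝ) * ((cyl G σ U').card : ℝ)) := by
  have hD0 : (0:ℝ) ≤ D := by positivity
  have hq0 : (0:ℝ) < q := by linarith
  have hq1 : (0:ℝ) < (q:ℝ) - 2 * D := by linarith
  have hq2 : (0:ℝ) < (q:ℝ) - D := by linarith
  induction U' using Finset.induction_on with
  | empty =>
    simp only [Finset.union_empty, Finset.card_empty, pow_zero, Finset.inter_empty, one_mul]
    rw [mul_comm]
  | insert u U' hu ih =>
    set A : ℝ := (q : ℝ) / (q - 2 * D) with hA
    have hA0 : 0 < A := by positivity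
    set N0 : ℝ := ((cyl G σ ∅).card : ℝ)
    have hN0 : 0 < N0 := cyl_card_pos G σ ∅
    set NU : ℝ := ((cyl G σ U).card : ℝ)
    have hNU : 0 < NU := cyl_card_pos G σ U
    set N' : ℝ := ((cyl G σ U').card : ℝ)
    have hN' : 0 < N' := cyl_card_pos G σ U'
    set Ni : ℝ := ((cyl G σ (insert u U')).card : ℝ)
    have hNi : 0 < Ni := cyl_card_pos G σ _
    have hB : N' * ((q : ℝ) - 2 * D) ≤ q * ((q : ℝ) - D) * Ni :=
      claimB G hD σ U' (u := u) (by linarith)
    have hB' : N' ≤ A * ((q:ℝ) - D) * Ni := by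
      rw [hA]
      rw [div_mul_eq_mul_div, div_mul_eq_mul_div, le_div_iff₀ hq1]
      exact hB
    rw [Finset.card_insert_of_notMem hu]
    by_cases huU : u ∈ U
    · have e1 : U ∪ insert u U' = U ∪ U' := by
        rw [Finset.union_insert, Finset.insert_eq_self]
        exact Finset.mem_union_left _ huU
      have e2 : (U ∩ insert u U').card = (U ∩ U').card + 1 := by
        rw [Finset.inter_insert_of_mem huU, Finset.card_insert_of_notMem]
        intro h; exact hu (Finset.mem_inter.1 h).2
      rw [e1, e2]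
      refine ih.trans ?_
      have h3 : NU * N' ≤ A * q * (NU * Ni) := by
        have : A * ((q:ℝ) - D) * Ni ≤ A * q * Ni := by
          apply mul_le_mul_of_nonneg_right _ hNi.le
          apply mul_le_mul_of_nonneg_left _ hA0.le
          linarith
        calc NU * N' ≤ NU * (A * q * Ni) := mul_le_mul_of_nonneg_left (hB'.trans this) hNU.le
          _ = _ := by ring
      calc A ^ U'.card * (q:ℝ) ^ (U ∩ U').card * (NU * N')
          ≤ A ^ U'.card * (q:ℝ) ^ (U ∩ U').card * (A * q * (NU * Ni)) :=
            mul_le_mul_of_nonneg_left h3 (by positivity)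
        _ = _ := by rw [pow_succ, pow_succ]; ring
    · have e1 : U ∪ insert u U' = insert u (U ∪ U') := Finset.union_insert _ _ _
      have e2 : (U ∩ insert u U') = (U ∩ U') := Finset.inter_insert_of_notMem huU
      rw [e1, e2]
      have huUU : u ∉ U ∪ U' := by
        rw [Finset.mem_union]; push Not; exact ⟨huU, hu⟩
      have hAA := claimA G hD σ (U ∪ U') huUU
      set Na : ℝ := ((cyl G σ (insert u (U ∪ U'))).card : ℝ)
      set Nb : ℝ := ((cyl G σ (U ∪ U')).card : ℝ)
      have h3 : N0 * Na * ((q:ℝ) - D) ≤ A ^ U'.card * (q:ℝ) ^ (U ∩ U').card * (NU * N') := by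
        calc N0 * Na * ((q:ℝ) - D) = N0 * (Na * ((q:ℝ) - D)) := by ring
          _ ≤ N0 * Nb := mul_le_mul_of_nonneg_left hAA hN0.le
          _ ≤ _ := ih
      have h4 : A ^ U'.card * (q:ℝ) ^ (U ∩ U').card * (NU * N') ≤
          A ^ U'.card * (q:ℝ) ^ (U ∩ U').card * (NU * (A * ((q:ℝ) - D) * Ni)) := by
        apply mul_le_mul_of_nonneg_left _ (by positivity)
        exact mul_le_mul_of_nonneg_left hB' hNU.le
      have h5 := h3.trans h4
      have h6 : A ^ U'.card * (q:ℝ) ^ (U ∩ U').card * (NU * (A * ((q:ℝ) - D) * Ni)) =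
          (A ^ (U'.card + 1) * (q:ℝ) ^ (U ∩ U').card * (NU * Ni)) * ((q:ℝ) - D) := by
        rw [pow_succ]; ring
      rw [h6] at h5
      exact le_of_mul_le_mul_right h5 hq2

end Count

section Upper

variable {V : Type} [Fintype V] [DecidableEq V]

lemma avg_prod_le [Nonempty V] (t : ℕ) (x : V → ℝ) (hx : ∀ v, 0 ≤ x v) :
    avg t (fun w => ∏ v, (if v ∈ miss w then 1 + x v else 1)) ≤
      ∏ v, (1 + (1 - 1 / (Fintype.card V : ℝ)) ^ t * x v) := by
  have hn : (1:ℝ) ≤ (Fintype.card V : ℝ) := by
    exact_mod_cast Fintype.card_pos (α := V)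
  have h1 : ∀ w : List V, ∏ v, (if v ∈ miss w then 1 + x v else 1) =
      ∑ S ∈ (univ : Finset V).powerset, (∏ v ∈ S, x v) *
        (if (∀ u ∈ S, u ∉ w) then (1:ℝ) else 0) := by
    intro w
    have e1 : ∀ v, (if v ∈ miss w then 1 + x v else 1) = 1 + (if v ∈ miss w then x v else 0) := by
      intro v; split_ifs <;> simp
    simp_rw [e1]
    rw [Finset.prod_one_add]
    apply Finset.sum_congr rfl
    intro S _
    by_cases hS : ∀ u ∈ S, u ∉ w
    · rw [if_pos hS, mul_one]
      apply Finset.prod_congr rfl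
      intro v hv
      rw [if_pos ((mem_miss w v).2 (hS v hv))]
    · rw [if_neg hS, mul_zero]
      push Not at hS
      obtain ⟨u, hu, huw⟩ := hS
      apply Finset.prod_eq_zero hu
      rw [if_neg]
      rw [mem_miss]; push Not; exact huw
  simp_rw [h1]
  rw [avg_sum]
  simp_rw [avg_mul, avg_miss]
  rw [Finset.prod_one_add]
  apply Finset.sum_le_sum
  intro S _
  rw [Finset.prod_mul_distrib, Finset.prod_const]
  rw [mul_comm]
  apply mul_le_mul_of_nonneg_right _ (Finset.prod_nonneg (fun v _ => hx v))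
  rw [← pow_mul, mul_comm t, pow_mul]
  apply pow_le_pow_left₀
  · have : (S.card : ℝ) ≤ (Fintype.card V : ℝ) := by exact_mod_cast Finset.card_le_univ S
    rw [sub_nonneg, div_le_one (by linarith)]
    exact this
  · have h2 := one_add_mul_le_pow (a := -(1 / (Fintype.card V : ℝ))) (by
      have : 1 / (Fintype.card V : ℝ) ≤ 1 := by
        rw [div_le_one (by linarith)]; exact hn
      linarith) S.card
    calc 1 - (S.card : ℝ) / (Fintype.card V : ℝ) =
        1 + (S.card : ℝ) * -(1 / (Fintype.card V : ℝ)) := by ring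
      _ ≤ (1 + -(1 / (Fintype.card V : ℝ))) ^ S.card := h2
      _ = _ := by ring

lemma one_add_pow_le_exp {x : ℝ} (hx : 0 ≤ x) (n : ℕ) : (1 + x) ^ n ≤ Real.exp (n * x) := by
  rw [Real.exp_nat_mul]
  apply pow_le_pow_left₀ (by linarith)
  have := Real.add_one_le_exp x
  linarith

variable (G : SimpleGraph V) [DecidableRel G.Adj] {q : ℕ}

lemma piU_inner (σ : PColoring G q) (U U' : Finset V) :
    ∑ τ, piU G σ U τ * piU G σ U' τ =
      ((cyl G σ (U ∪ U')).card : ℝ) / (((cyl G σ U).card : ℝ) * ((cyl G σ U').card : ℝ)) := by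
  have h1 : ∀ τ, piU G σ U τ * piU G σ U' τ = if τ ∈ cyl G σ (U ∪ U') then
      1 / (((cyl G σ U).card : ℝ) * ((cyl G σ U').card : ℝ)) else 0 := by
    intro τ
    unfold piU
    have hiff : τ ∈ cyl G σ (U ∪ U') ↔ τ ∈ cyl G σ U ∧ τ ∈ cyl G σ U' := by
      simp only [mem_cyl, Finset.mem_union]
      constructor
      · intro h; exact ⟨fun u hu => h u (Or.inl hu), fun u hu => h u (Or.inr hu)⟩
      · rintro ⟨h1, h2⟩ u (hu | hu)
        · exact h1 u hu
        · exact h2 u hu
    by_cases ha : τ ∈ cyl G σ U <;> by_cases hb : τ ∈ cyl G σ U'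
    · rw [if_pos ha, if_pos hb, if_pos (hiff.2 ⟨ha, hb⟩)]
      field_simp
    · rw [if_pos ha, if_neg hb, if_neg (fun h => hb (hiff.1 h).2)]; ring
    · rw [if_neg ha, if_pos hb, if_neg (fun h => ha (hiff.1 h).1)]; ring
    · rw [if_neg ha, if_neg hb, if_neg (fun h => hb (hiff.1 h).2)]; ring
  simp_rw [h1]
  rw [Finset.sum_ite_mem, Finset.univ_inter, Finset.sum_const, nsmul_eq_mul]
  ring

lemma card_cyl_empty (σ : PColoring G q) :
    (cyl G σ ∅).card = Fintype.card (PColoring G q) := by
  unfold cyl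
  simp

/-- chi-square bound for the mixture -/
lemma chi_bound [Nonempty V] {D : ℕ} (hD : ∀ v, G.degree v ≤ D) (σ : PColoring G q)
    (hqD : 2 * (D : ℝ) < q) (hq1 : 1 ≤ q) (t : ℕ) :
    (Fintype.card (PColoring G q) : ℝ) *
      ∑ τ, (avg t (fun w => piU G σ (miss w) τ)) ^ 2 ≤
      Real.exp ((Fintype.card V : ℝ) *
        ((1 - 1 / (Fintype.card V : ℝ)) ^ t * ((q : ℝ) / (q - 2 * D) - 1)) +
        (Fintype.card V : ℝ) * (((1 - 1 / (Fintype.card V : ℝ)) ^ t) ^ 2 *
          ((q : ℝ) / (q - 2 * D) * q - 1))) := by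
  have hn : (1:ℝ) ≤ (Fintype.card V : ℝ) := by
    exact_mod_cast Fintype.card_pos (α := V)
  have hD0 : (0:ℝ) ≤ D := by positivity
  have hqr : (1:ℝ) ≤ q := by exact_mod_cast hq1
  have hq2 : (0:ℝ) < (q:ℝ) - 2 * D := by linarith
  set A : ℝ := (q : ℝ) / (q - 2 * D) with hA
  have hA1 : 1 ≤ A := by rw [hA, le_div_iff₀ hq2]; linarith
  have hAq : 1 ≤ A * q := by nlinarith
  set p : ℝ := (1 - 1 / (Fintype.card V : ℝ)) ^ t with hp
  have hp0 : 0 ≤ p := by
    apply pow_nonneg
    rw [sub_nonneg, div_le_one (by linarith)]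
    exact hn
  set M : ℝ := (Fintype.card (PColoring G q) : ℝ) with hM
  have hsq : ∀ τ, (avg t (fun w => piU G σ (miss w) τ)) ^ 2 =
      avg t (fun w => avg t (fun w' => piU G σ (miss w) τ * piU G σ (miss w') τ)) := by
    intro τ
    simp_rw [avg_mul, avg_mul']
    ring
  simp_rw [hsq]
  rw [← avg_sum]
  simp_rw [← avg_sum]
  rw [← avg_mul]
  simp_rw [← avg_mul, piU_inner]
  have hR : ∀ w w' : List V, M * (((cyl G σ (miss w ∪ miss w')).card : ℝ) /
      (((cyl G σ (miss w)).card : ℝ) * ((cyl G σ (miss w')).card : ℝ))) ≤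
      ∏ v, (if v ∈ miss w' then 1 + (if v ∈ miss w then A * q - 1 else A - 1) else 1) := by
    intro w w'
    have h1 := corr G hD σ hqD (miss w) (miss w')
    rw [card_cyl_empty, ← hM, ← hA] at h1
    have h2 : (0:ℝ) < ((cyl G σ (miss w)).card : ℝ) * ((cyl G σ (miss w')).card : ℝ) :=
      mul_pos (cyl_card_pos G σ _) (cyl_card_pos G σ _)
    rw [mul_div_assoc', div_le_iff₀ h2]
    refine h1.trans (le_of_eq ?_)
    congr 1
    have e1 : ∀ v, (if v ∈ miss w' then 1 + (if v ∈ miss w then A * q - 1 else A - 1) else 1) =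
        (if v ∈ miss w' then A else 1) * (if v ∈ miss w ∩ miss w' then (q:ℝ) else 1) := by
      intro v
      simp only [Finset.mem_inter]
      by_cases h1 : v ∈ miss w' <;> by_cases h2 : v ∈ miss w <;> simp [h1, h2]
    simp_rw [e1]
    rw [Finset.prod_mul_distrib, Finset.prod_ite_mem, Finset.prod_ite_mem, Finset.univ_inter,
      Finset.univ_inter, Finset.prod_const, Finset.prod_const]
  have hin : ∀ w : List V, avg t (fun w' => M * (((cyl G σ (miss w ∪ miss w')).card : ℝ) /
      (((cyl G σ (miss w)).card : ℝ) * ((cyl G σ (miss w')).card : ℝ)))) ≤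
      (1 + p * (A - 1)) ^ (Fintype.card V) *
        ∏ v, (if v ∈ miss w then 1 + p * (A * q - 1) else 1) := by
    intro w
    refine (avg_mono t (hR w)).trans ?_
    refine (avg_prod_le t (fun v => if v ∈ miss w then A * q - 1 else A - 1) (by
      intro v
      split_ifs <;> linarith)).trans ?_
    rw [← hp]
    have e2 : (1 + p * (A - 1)) ^ (Fintype.card V) = ∏ v : V, (1 + p * (A - 1)) := by
      rw [Finset.prod_const, Finset.card_univ]
    rw [e2, ← Finset.prod_mul_distrib]
    apply Finset.prod_le_prod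
    · intro v _
      split_ifs <;> nlinarith
    · intro v _
      have ha : 0 ≤ p * (A - 1) := mul_nonneg hp0 (by linarith)
      have hb : 0 ≤ p * (A * q - 1) := mul_nonneg hp0 (by linarith)
      split_ifs
      · nlinarith [mul_nonneg ha hb]
      · linarith
  refine (avg_mono t hin).trans ?_
  rw [avg_mul]
  have h3 := avg_prod_le t (fun _ : V => p * (A * q - 1)) (fun _ =>
    mul_nonneg hp0 (by linarith))
  rw [← hp, Finset.prod_const, Finset.card_univ] at h3
  have h4 : (1 + p * (A - 1)) ^ (Fintype.card V) ≤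
      Real.exp ((Fintype.card V : ℝ) * (p * (A - 1))) :=
    one_add_pow_le_exp (mul_nonneg hp0 (by linarith)) _
  have h5 : (1 + p * (p * (A * q - 1))) ^ (Fintype.card V) ≤
      Real.exp ((Fintype.card V : ℝ) * (p ^ 2 * (A * q - 1))) := by
    have e : p * (p * (A * q - 1)) = p ^ 2 * (A * q - 1) := by ring
    rw [e]
    exact one_add_pow_le_exp (mul_nonneg (by positivity) (by linarith)) _
  rw [Real.exp_add]
  have h6 : (0:ℝ) ≤ (1 + p * (A - 1)) ^ (Fintype.card V) := by
    apply pow_nonneg
    nlinarith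
  calc (1 + p * (A - 1)) ^ (Fintype.card V) *
      avg t (fun w => ∏ v, (if v ∈ miss w then 1 + p * (A * q - 1) else 1))
      ≤ (1 + p * (A - 1)) ^ (Fintype.card V) *
        (1 + p * (p * (A * q - 1))) ^ (Fintype.card V) := mul_le_mul_of_nonneg_left h3 h6
    _ ≤ _ := mul_le_mul h4 h5 (by
        apply pow_nonneg
        nlinarith [mul_nonneg hp0 (mul_nonneg hp0 (show 0 ≤ A * q - 1 by linarith))])
        (Real.exp_nonneg _)

lemma l1_le_sqrt {Ω : Type} [Fintype Ω] (ν : Ω → ℝ) (hν : ∑ τ, ν τ = 1) {B : ℝ}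
    (hB : (Fintype.card Ω : ℝ) * ∑ τ, (ν τ) ^ 2 ≤ B) (hΩ : (0:ℝ) < (Fintype.card Ω : ℝ)) :
    ∑ τ, |ν τ - 1 / (Fintype.card Ω : ℝ)| ≤ Real.sqrt (B - 1) := by
  apply Real.le_sqrt_of_sq_le
  have h1 := sq_sum_le_card_mul_sum_sq (s := (univ : Finset Ω))
    (f := fun τ => |ν τ - 1 / (Fintype.card Ω : ℝ)|)
  refine h1.trans ?_
  simp_rw [sq_abs, sub_sq]
  rw [Finset.sum_add_distrib, Finset.sum_sub_distrib, ← Finset.sum_mul, ← Finset.mul_sum, hν,
    Finset.sum_const, Finset.card_univ, nsmul_eq_mul]
  have : (Fintype.card Ω : ℝ) * ((∑ τ, (ν τ) ^ 2) - 2 * 1 * (1 / (Fintype.card Ω : ℝ)) +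
      (Fintype.card Ω : ℝ) * (1 / (Fintype.card Ω : ℝ)) ^ 2) =
      (Fintype.card Ω : ℝ) * (∑ τ, (ν τ) ^ 2) - 1 := by
    field_simp
    ring
  rw [this]
  linarith

/-- main upper bound on the distance to stationarity -/
theorem tv_upper [Nonempty V] {D : ℕ} (hD : ∀ v, G.degree v ≤ D) (hq1 : 1 ≤ q)
    (hqD : 2 * (D : ℝ) < q) (t : ℕ) (σ : PColoring G q) :
    tvDist G q t σ ≤ ((Fintype.card V : ℝ) *
        (1 - 1 / (Fintype.card V : ℝ) + 3 * D / (q * Fintype.card V)) ^ t -
        (Fintype.card V : ℝ) * (1 - 1 / (Fintype.card V : ℝ)) ^ t) +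
      (1 / 2) * Real.sqrt (Real.exp ((Fintype.card V : ℝ) *
        ((1 - 1 / (Fintype.card V : ℝ)) ^ t * ((q : ℝ) / (q - 2 * D) - 1)) +
        (Fintype.card V : ℝ) * (((1 - 1 / (Fintype.card V : ℝ)) ^ t) ^ 2 *
          ((q : ℝ) / (q - 2 * D) * q - 1))) - 1) := by
  have hn : (1:ℝ) ≤ (Fintype.card V : ℝ) := by
    exact_mod_cast Fintype.card_pos (α := V)
  have hM : (0:ℝ) < (Fintype.card (PColoring G q) : ℝ) := by
    rw [← card_cyl_empty G σ]
    exact cyl_card_pos G σ ∅
  unfold tvDist
  have h1 : ∀ τ, |(glauber G q ^ t) σ τ - 1 / (Fintype.card (PColoring G q) : ℝ)| ≤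
      avg t (fun w => |mu G σ w τ - piU G σ (miss w) τ|) +
      |avg t (fun w => piU G σ (miss w) τ) - 1 / (Fintype.card (PColoring G q) : ℝ)| := by
    intro τ
    rw [pow_eq_avg]
    have e : avg t (fun w => mu G σ w τ) - 1 / (Fintype.card (PColoring G q) : ℝ) =
        avg t (fun w => mu G σ w τ - piU G σ (miss w) τ) +
        (avg t (fun w => piU G σ (miss w) τ) - 1 / (Fintype.card (PColoring G q) : ℝ)) := by
      rw [avg_sub]; ring
    rw [e]
    refine (abs_add_le _ _).trans ?_
    gcongr
    exact abs_avg_le t _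
  have h2 : ∑ τ, |(glauber G q ^ t) σ τ - 1 / (Fintype.card (PColoring G q) : ℝ)| ≤
      avg t (fun w => ∑ τ, |mu G σ w τ - piU G σ (miss w) τ|) +
      ∑ τ, |avg t (fun w => piU G σ (miss w) τ) - 1 / (Fintype.card (PColoring G q) : ℝ)| := by
    rw [avg_sum, ← Finset.sum_add_distrib]
    exact Finset.sum_le_sum (fun τ _ => h1 τ)
  have h3 := avg_key G hD (by omega) σ t (by
    have : 1 / (Fintype.card V : ℝ) ≤ 1 := by rw [div_le_one (by linarith)]; exact hn
    have h : (0:ℝ) ≤ 3 * D / (q * Fintype.card V) := by positivity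
    linarith)
  have h4 := l1_le_sqrt (fun τ => avg t (fun w => piU G σ (miss w) τ)) (by
    rw [← avg_sum]
    simp_rw [piU_sum]
    exact avg_const t 1) (chi_bound G hD σ hqD hq1 t) hM
  linarith

end Upper

section Lower

variable {V : Type} [Fintype V] [DecidableEq V]

lemma avg_miss_nonempty [Nonempty V] (t : ℕ) :
    ((Fintype.card V : ℝ) * (1 - 1 / (Fintype.card V : ℝ)) ^ t) /
      (1 + (Fintype.card V : ℝ) * (1 - 1 / (Fintype.card V : ℝ)) ^ t) ≤
      avg t (fun w : List V => if (miss w).Nonempty then (1:ℝ) else 0) := by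
  have hn : (1:ℝ) ≤ (Fintype.card V : ℝ) := by
    exact_mod_cast Fintype.card_pos (α := V)
  set n : ℝ := (Fintype.card V : ℝ) with hndef
  have hp0 : 0 ≤ 1 - 1 / n := by
    rw [sub_nonneg, div_le_one (by linarith)]
    exact hn
  set μ : ℝ := n * (1 - 1 / n) ^ t with hμ
  have hμ0 : 0 ≤ μ := by positivity
  set l : ℝ := 1 / (1 + μ) with hl
  have hZ1 : avg t (fun w : List V => ((miss w).card : ℝ)) = μ := avg_card_miss t
  have hZ2 : avg t (fun w : List V => ((miss w).card : ℝ) ^ 2) ≤ μ + μ ^ 2 := by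
    have e1 : (fun w : List V => ((miss w).card : ℝ) ^ 2) =
        fun w => ∑ x : V × V, (if (∀ u ∈ ({x.1, x.2} : Finset V), u ∉ w) then (1:ℝ) else 0) := by
      funext w
      unfold miss
      rw [Finset.card_filter, Nat.cast_sum, sq, Finset.sum_mul_sum, ← Finset.univ_product_univ,
        Finset.sum_product]
      apply Finset.sum_congr rfl; intro u _
      apply Finset.sum_congr rfl; intro v _
      by_cases h1 : u ∈ w <;> by_cases h2 : v ∈ w <;> simp [h1, h2]
    rw [e1, avg_sum]
    simp_rw [avg_miss]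
    have h2 : ∀ x : V × V, (1 - ((({x.1, x.2} : Finset V).card : ℕ) : ℝ) / n) ^ t ≤
        (if x.1 = x.2 then (1 - 1 / n) ^ t else 0) + ((1 - 1 / n) ^ t) ^ 2 := by
      rintro ⟨u, v⟩
      by_cases huv : u = v
      · subst huv
        simp only [Finset.pair_eq_singleton, Finset.card_singleton, Nat.cast_one, if_true]
        have : 0 ≤ ((1 - 1 / n) ^ t) ^ 2 := by positivity
        linarith
      · rw [if_neg huv, zero_add, Finset.card_pair huv, ← pow_mul, mul_comm t, pow_mul]
        have h2n : (2:ℝ) ≤ n := by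
          rw [hndef]
          have : ({u, v} : Finset V).card ≤ Fintype.card V := Finset.card_le_univ _
          rw [Finset.card_pair huv] at this
          exact_mod_cast this
        apply pow_le_pow_left₀
        · rw [sub_nonneg, div_le_one (by linarith)]
          exact_mod_cast h2n
        · have : (1 - 1 / n) ^ 2 = 1 - 2 / n + 1 / n ^ 2 := by field_simp; ring
          rw [this]
          have : 0 ≤ 1 / n ^ 2 := by positivity
          push_cast
          linarith
    refine (Finset.sum_le_sum (fun x _ => h2 x)).trans ?_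
    rw [Finset.sum_add_distrib, Finset.sum_const, ← Finset.univ_product_univ,
      Finset.sum_product]
    simp only [Finset.sum_ite_eq, Finset.mem_univ, if_true, Finset.sum_const, Finset.card_univ,
      Finset.card_product, nsmul_eq_mul, Nat.cast_mul]
    rw [← hndef, hμ]
    apply le_of_eq; ring
  have hpt : ∀ w : List V, 2 * l * ((miss w).card : ℝ) - l ^ 2 * ((miss w).card : ℝ) ^ 2 ≤
      if (miss w).Nonempty then (1:ℝ) else 0 := by
    intro w
    by_cases h : (miss w).Nonempty
    · rw [if_pos h]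
      nlinarith [sq_nonneg (1 - l * ((miss w).card : ℝ))]
    · rw [if_neg h]
      rw [Finset.not_nonempty_iff_eq_empty] at h
      rw [h]; simp
  have h3 := avg_mono t hpt
  rw [avg_sub, avg_mul, avg_mul, hZ1] at h3
  refine le_trans ?_ h3
  have hl0 : 0 ≤ l ^ 2 := sq_nonneg _
  have h4 : l ^ 2 * avg t (fun w : List V => ((miss w).card : ℝ) ^ 2) ≤ l ^ 2 * (μ + μ ^ 2) :=
    mul_le_mul_of_nonneg_left hZ2 hl0
  have h5 : μ / (1 + μ) = 2 * l * μ - l ^ 2 * (μ + μ ^ 2) := by
    rw [hl]; field_simp; ring
  rw [h5]; linarith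

variable (G : SimpleGraph V) [DecidableRel G.Adj] {q : ℕ}

lemma mu_support (σ : PColoring G q) (w : List V) (v : V) (hv : v ∉ w) :
    ∀ τ, mu G σ w τ ≠ 0 → τ.1 v = σ.1 v := by
  induction w with
  | nil =>
    intro τ h
    simp only [mu] at h
    by_cases hst : σ = τ
    · rw [hst]
    · rw [if_neg hst] at h; exact absurd rfl h
  | cons v' w ih =>
    intro τ h
    simp only [List.mem_cons, not_or] at hv
    simp only [mu] at h
    obtain ⟨ρ, _, hρ⟩ := Finset.exists_ne_zero_of_sum_ne_zero h
    have h1 := ih hv.2 ρ (left_ne_zero_of_mul hρ)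
    have h2 := K_ne_zero G (right_ne_zero_of_mul hρ) v hv.1
    rw [← h2, h1]

lemma half_l1 {Ω : Type} [Fintype Ω] [DecidableEq Ω] (f : Ω → ℝ) (hf : ∑ τ, f τ = 0)
    (A : Finset Ω) : ∑ τ ∈ A, f τ ≤ (1 / 2) * ∑ τ, |f τ| := by
  have h1 : ∑ τ ∈ A, f τ ≤ ∑ τ ∈ A, |f τ| := Finset.sum_le_sum (fun τ _ => le_abs_self _)
  have h2 : -∑ τ ∈ Aᶜ, f τ ≤ ∑ τ ∈ Aᶜ, |f τ| := by
    rw [← Finset.sum_neg_distrib]
    exact Finset.sum_le_sum (fun τ _ => neg_le_abs _)
  have h3 := Finset.sum_add_sum_compl A f
  have h4 := Finset.sum_add_sum_compl A (fun τ => |f τ|)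
  rw [hf] at h3
  linarith

/-- lower bound on the distance to stationarity -/
theorem tv_lower [Nonempty V] {D : ℕ} (hD : ∀ v, G.degree v ≤ D)
    (hqD : (D : ℝ) < q) (t : ℕ) (σ : PColoring G q) :
    ((Fintype.card V : ℝ) * (1 - 1 / (Fintype.card V : ℝ)) ^ t) /
      (1 + (Fintype.card V : ℝ) * (1 - 1 / (Fintype.card V : ℝ)) ^ t) -
      (Fintype.card V : ℝ) / ((q : ℝ) - D) ≤ tvDist G q t σ := by
  have hq : 0 < q := by
    rcases Nat.eq_zero_or_pos q with h | h
    · subst h
      have : (0:ℝ) ≤ D := by positivity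
      simp at hqD
      linarith
    · exact h
  have hM : (0:ℝ) < (Fintype.card (PColoring G q) : ℝ) := by
    rw [← card_cyl_empty G σ]
    exact cyl_card_pos G σ ∅
  set M : ℝ := (Fintype.card (PColoring G q) : ℝ) with hMdef
  set A : Finset (PColoring G q) := univ.filter (fun τ => ∃ v, τ.1 v = σ.1 v) with hA
  have hsum1 : ∑ τ, (glauber G q ^ t) σ τ = 1 := by
    simp_rw [pow_eq_avg]
    rw [← avg_sum]
    simp_rw [mu_sum G hq]
    exact avg_const t 1
  have hf : ∑ τ, ((glauber G q ^ t) σ τ - 1 / M) = 0 := by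
    rw [Finset.sum_sub_distrib, hsum1, Finset.sum_const, Finset.card_univ, nsmul_eq_mul,
      ← hMdef]
    field_simp
    ring
  have h1 := half_l1 (fun τ => (glauber G q ^ t) σ τ - 1 / M) hf A
  unfold tvDist
  refine le_trans ?_ h1
  rw [Finset.sum_sub_distrib]
  have h2 : ((Fintype.card V : ℝ) * (1 - 1 / (Fintype.card V : ℝ)) ^ t) /
      (1 + (Fintype.card V : ℝ) * (1 - 1 / (Fintype.card V : ℝ)) ^ t) ≤
      ∑ τ ∈ A, (glauber G q ^ t) σ τ := by
    refine (avg_miss_nonempty t).trans ?_
    simp_rw [pow_eq_avg]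
    rw [← avg_sum]
    apply avg_mono
    intro w
    by_cases hw : (miss w).Nonempty
    · rw [if_pos hw]
      obtain ⟨v, hv⟩ := hw
      rw [mem_miss] at hv
      rw [← mu_sum G hq σ w]
      rw [← Finset.sum_subset (Finset.subset_univ A)]
      intro τ _ hτ
      by_contra hne
      apply hτ
      simp only [hA, Finset.mem_filter, Finset.mem_univ, true_and]
      exact ⟨v, mu_support G σ w v hv τ hne⟩
    · rw [if_neg hw]
      exact Finset.sum_nonneg (fun τ _ => mu_nonneg G σ w τ)
  have h3 : ∑ τ ∈ A, (1 / M) ≤ (Fintype.card V : ℝ) / ((q : ℝ) - D) := by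
    rw [Finset.sum_const, nsmul_eq_mul]
    have hqD' : (0:ℝ) < (q:ℝ) - D := by linarith
    have hA1 : A ⊆ (univ : Finset V).biUnion (fun v => cyl G σ {v}) := by
      intro τ hτ
      simp only [hA, Finset.mem_filter, Finset.mem_univ, true_and] at hτ
      obtain ⟨v, hv⟩ := hτ
      simp only [Finset.mem_biUnion, Finset.mem_univ, true_and, mem_cyl, Finset.mem_singleton]
      exact ⟨v, fun u hu => hu ▸ hv⟩
    have hA2 : (A.card : ℝ) ≤ ∑ v : V, ((cyl G σ {v}).card : ℝ) := by
      exact_mod_cast (Finset.card_le_card hA1).trans Finset.card_biUnion_le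
    have hA3 : ∀ v : V, ((cyl G σ {v}).card : ℝ) ≤ M / ((q:ℝ) - D) := by
      intro v
      have := claimA G hD σ ∅ (y := v) (by simp)
      rw [card_cyl_empty, ← hMdef] at this
      rw [le_div_iff₀ hqD']
      simpa using this
    have hA4 : (A.card : ℝ) ≤ (Fintype.card V : ℝ) * (M / ((q:ℝ) - D)) := by
      refine hA2.trans ((Finset.sum_le_sum (fun v _ => hA3 v)).trans ?_)
      rw [Finset.sum_const, Finset.card_univ, nsmul_eq_mul]
    calc (A.card : ℝ) * (1 / M) ≤ ((Fintype.card V : ℝ) * (M / ((q:ℝ) - D))) * (1 / M) :=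
          mul_le_mul_of_nonneg_right hA4 (by positivity)
      _ = _ := by field_simp
  linarith

/-- the mixing time is well defined when `q > 3 D` -/
lemma exists_mixing [Nonempty V] {D : ℕ} (hD : ∀ v, G.degree v ≤ D) (hqD : 3 * D < q) :
    ∃ t, IsMixingTime G q t := by
  have hq : 0 < q := by omega
  have hn : (1:ℝ) ≤ (Fintype.card V : ℝ) := by
    exact_mod_cast Fintype.card_pos (α := V)
  have hqr : (0:ℝ) < q := by exact_mod_cast hq
  have hD3 : (3:ℝ) * D < q := by exact_mod_cast hqD
  set r : ℝ := 1 - 1 / (Fintype.card V : ℝ) + 3 * D / (q * Fintype.card V) with hr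
  have hr0 : 0 ≤ r := by
    have : 1 / (Fintype.card V : ℝ) ≤ 1 := by rw [div_le_one (by linarith)]; exact hn
    have h : (0:ℝ) ≤ 3 * D / (q * Fintype.card V) := by positivity
    linarith
  have hr1 : r < 1 := by
    have : 3 * (D:ℝ) / (q * Fintype.card V) < 1 / (Fintype.card V : ℝ) := by
      rw [div_lt_div_iff₀ (by positivity) (by linarith)]
      nlinarith
    linarith
  have hbound : ∀ t (σ : PColoring G q), tvDist G q t σ ≤ (Fintype.card V : ℝ) * r ^ t := by
    intro t σ
    unfold tvDist
    have h1 : ∀ τ, |(glauber G q ^ t) σ τ - 1 / (Fintype.card (PColoring G q) : ℝ)| ≤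
        avg t (fun w => |mu G σ w τ - piU G σ ∅ τ|) := by
      intro τ
      rw [pow_eq_avg]
      have e : avg t (fun w => mu G σ w τ) - 1 / (Fintype.card (PColoring G q) : ℝ) =
          avg t (fun w => mu G σ w τ - piU G σ ∅ τ) := by
        rw [avg_sub, avg_const]
        congr 1
        unfold piU
        rw [if_pos (by simp [mem_cyl]), card_cyl_empty]
      rw [e]
      exact abs_avg_le t _
    have h2 : ∑ τ, |(glauber G q ^ t) σ τ - 1 / (Fintype.card (PColoring G q) : ℝ)| ≤
        avg t (fun w => ∑ τ, |mu G σ w τ - piU G σ ∅ τ|) := by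
      rw [avg_sum]
      exact Finset.sum_le_sum (fun τ _ => h1 τ)
    have h3 : avg t (fun w => ∑ τ, |mu G σ w τ - piU G σ ∅ τ|) ≤
        avg t (fun w => 2 * ∑ u, bvec G q D (fun _ => 1) w u) := by
      apply avg_mono
      intro w
      have := key_l1 G hD hq σ ∅ w (by simp)
      simpa using this
    rw [avg_mul] at h3
    have h4 := avg_bvec_le G (q := q) hD t hr0
    linarith
  have hlim : Filter.Tendsto (fun t : ℕ => (Fintype.card V : ℝ) * r ^ t) Filter.atTop
      (nhds 0) := by
    have := (tendsto_pow_atTop_nhds_zero_of_lt_one hr0 hr1).const_mul (Fintype.card V : ℝ)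
    simpa using this
  have hpos : (0:ℝ) < 1 / Real.exp 1 := by positivity
  obtain ⟨t, ht⟩ := ((hlim.eventually (gt_mem_nhds hpos)).exists)
  have hne : {s : ℕ | ∀ σ : PColoring G q, tvDist G q s σ ≤ 1 / Real.exp 1}.Nonempty :=
    ⟨t, fun σ => (hbound t σ).trans ht.le⟩
  exact ⟨sInf _, Nat.sInf_mem hne, fun s hs => Nat.sInf_le hs⟩

end Lower

section Asymptotics

lemma exists_L (D : ℕ) : ∃ L0 : ℝ, 16 ≤ L0 ∧ ∀ L : ℝ, L0 ≤ L →
    20 * ((D : ℝ) + 1) * ((L + 1) * Real.exp (-(L / 8))) ≤ 1 / 10 := by
  have h1 : Filter.Tendsto (fun L : ℝ => 20 * ((D : ℝ) + 1) * ((L + 1) * Real.exp (-(L / 8))))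
      Filter.atTop (nhds 0) := by
    have h2 : Filter.Tendsto (fun x : ℝ => x ^ 1 * Real.exp (-x)) Filter.atTop (nhds 0) :=
      Real.tendsto_pow_mul_exp_neg_atTop_nhds_zero 1
    have h3 : Filter.Tendsto (fun x : ℝ => Real.exp (-x)) Filter.atTop (nhds 0) :=
      Real.tendsto_exp_neg_atTop_nhds_zero
    have h4 : Filter.Tendsto (fun L : ℝ => L / 8) Filter.atTop Filter.atTop :=
      Filter.tendsto_id.atTop_div_const (by norm_num)
    have h5 := h2.comp h4
    have h6 := h3.comp h4
    have h7 : Filter.Tendsto (fun L : ℝ => 20 * ((D : ℝ) + 1) *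
        (8 * ((fun x : ℝ => x ^ 1 * Real.exp (-x)) ∘ fun L => L / 8) L +
          ((fun x : ℝ => Real.exp (-x)) ∘ fun L => L / 8) L)) Filter.atTop
        (nhds (20 * ((D : ℝ) + 1) * (8 * 0 + 0))) :=
      ((h5.const_mul 8).add h6).const_mul _
    simp only [mul_zero, add_zero] at h7
    refine h7.congr (fun L => ?_)
    simp only [Function.comp]
    ring
  have h8 := h1.eventually (gt_mem_nhds (show (0:ℝ) < 1 / 10 by norm_num))
  rw [Filter.eventually_atTop] at h8
  obtain ⟨a, ha⟩ := h8
  exact ⟨max a 16, le_max_right _ _, fun L hL => (ha L ((le_max_left _ _).trans hL)).le⟩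

lemma pow_sub_pow_bound {r s : ℝ} (hr : 1 / 2 ≤ r) (hs : 0 ≤ s) (hsr : s ≤ r) (T : ℕ) :
    r ^ T - s ^ T ≤ 2 * T * (r - s) * r ^ T := by
  have hr0 : 0 < r := by linarith
  have h1 := one_add_mul_le_pow (a := -((r - s) / r)) (by
    have : (r - s) / r ≤ 1 := by rw [div_le_one hr0]; linarith
    linarith) T
  have h2 : (1 + -((r - s) / r)) ^ T * r ^ T = s ^ T := by
    rw [← mul_pow]
    congr 1
    field_simp
    ring
  have h3 : (1 + (T : ℝ) * -((r - s) / r)) * r ^ T ≤ s ^ T := by
    rw [← h2]
    exact mul_le_mul_of_nonneg_right h1 (by positivity)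
  have h4 : (r - s) / r ≤ 2 * (r - s) := by
    rw [div_le_iff₀ hr0]
    nlinarith
  have h5 : (T : ℝ) * ((r - s) / r) * r ^ T ≤ T * (2 * (r - s)) * r ^ T := by
    gcongr
  nlinarith

lemma num_bound {X1 X2 : ℝ} (h1 : X1 ≤ 1 / 10) (h2 : X2 ≤ 1 / 10) :
    X1 + (1 / 2) * Real.sqrt (Real.exp X2 - 1) ≤ 1 / Real.exp 1 := by
  have h3 : Real.exp X2 ≤ 10 / 9 := by
    have h4 : Real.exp X2 ≤ Real.exp (1 / 10) := Real.exp_le_exp.2 h2
    have h5 := Real.one_sub_le_exp_neg (1 / 10)
    rw [Real.exp_neg] at h5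
    have h6 : Real.exp (1 / 10) ≤ 10 / 9 := by
      have h7 : 0 < Real.exp (1 / 10 : ℝ) := Real.exp_pos _
      have h8 : (9:ℝ) / 10 ≤ (Real.exp (1 / 10))⁻¹ := by linarith
      rw [le_inv_comm₀ (by norm_num) h7] at h8
      calc Real.exp (1 / 10) ≤ ((9:ℝ) / 10)⁻¹ := h8
        _ = 10 / 9 := by norm_num
    linarith
  have h4 : Real.sqrt (Real.exp X2 - 1) ≤ 1 / 3 := by
    rw [show (1:ℝ) / 3 = Real.sqrt (1 / 9) by
      rw [show (1:ℝ) / 9 = (1 / 3) ^ 2 by norm_num, Real.sqrt_sq (by norm_num)]]
    apply Real.sqrt_le_sqrt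
    linarith
  have h5 : (0.36 : ℝ) ≤ 1 / Real.exp 1 := by
    rw [le_div_iff₀ (Real.exp_pos 1)]
    have := Real.exp_one_lt_d9
    linarith
  linarith

/-- numerical facts at `n = exp L` -/
lemma numerics (D n : ℕ) (L : ℝ) (hL : L = Real.log n) (hL16 : 16 ≤ L)
    (hLD : 20 * ((D : ℝ) + 1) * ((L + 1) * Real.exp (-(L / 8))) ≤ 1 / 10) (hn : 2 ≤ n) :
    let q : ℕ := ⌈Real.exp (3 * L / 8)⌉₊
    let T : ℕ := ⌈3 / 4 * (n : ℝ) * L⌉₊
    4 * D + 2 ≤ q ∧
    ((n : ℝ) * (1 - 1 / (n : ℝ) + 3 * D / (q * n)) ^ T - (n : ℝ) * (1 - 1 / (n : ℝ)) ^ T)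
      ≤ 1 / 10 ∧
    (n : ℝ) * ((1 - 1 / (n : ℝ)) ^ T * ((q : ℝ) / (q - 2 * D) - 1)) +
        (n : ℝ) * (((1 - 1 / (n : ℝ)) ^ T) ^ 2 * ((q : ℝ) / (q - 2 * D) * q - 1)) ≤ 1 / 10 ∧
    9 ≤ (n : ℝ) * (1 - 1 / (n : ℝ)) ^ T := by
  intro q T
  have hn2 : (2:ℝ) ≤ n := by exact_mod_cast hn
  have hn0 : (0:ℝ) < n := by linarith
  have hexpL : Real.exp L = n := by rw [hL]; exact Real.exp_log hn0
  have hD0 : (0:ℝ) ≤ D := by positivity
  set E : ℝ := Real.exp (-(L / 8)) with hE
  have hE0 : 0 < E := Real.exp_pos _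
  have hDE : ((D:ℝ) + 1) * ((L + 1) * E) ≤ 1 / 200 := by linarith
  have hLE : (L + 1) * E ≤ 1 / 200 := by
    have h0 : 0 ≤ (D:ℝ) * ((L + 1) * E) := by positivity
    linarith
  have hE1 : ((D:ℝ) + 1) * E ≤ 1 / 3400 := by
    have : ((D:ℝ) + 1) * E * 17 ≤ ((D:ℝ) + 1) * E * (L + 1) := by
      apply mul_le_mul_of_nonneg_left _ (by positivity)
      linarith
    linarith
  -- q bounds
  set Q : ℝ := Real.exp (3 * L / 8) with hQ
  have hQ0 : 0 < Q := Real.exp_pos _
  have hqQ : Q ≤ (q : ℝ) := Nat.le_ceil _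
  have hqQ' : (q : ℝ) < Q + 1 := Nat.ceil_lt_add_one hQ0.le
  have hE8 : E * Real.exp (L / 8) = 1 := by
    rw [hE, ← Real.exp_add]; simp
  have hQ8 : Real.exp (L / 8) ≤ Q := by
    apply Real.exp_le_exp.2; linarith
  have hDexp : 3400 * ((D:ℝ) + 1) ≤ Real.exp (L / 8) := by
    have h1 : ((D:ℝ) + 1) * E * Real.exp (L / 8) ≤ 1 / 3400 * Real.exp (L / 8) :=
      mul_le_mul_of_nonneg_right hE1 (Real.exp_pos _).le
    rw [mul_assoc, hE8, mul_one] at h1
    linarith
  have hDL : 200 * (((D:ℝ) + 1) * (L + 1)) ≤ Real.exp (L / 8) := by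
    have h1 : ((D:ℝ) + 1) * ((L + 1) * E) * Real.exp (L / 8) ≤ 1 / 200 * Real.exp (L / 8) :=
      mul_le_mul_of_nonneg_right hDE (Real.exp_pos _).le
    have h2 : ((D:ℝ) + 1) * ((L + 1) * E) * Real.exp (L / 8) = ((D:ℝ) + 1) * (L + 1) := by
      calc ((D:ℝ) + 1) * ((L + 1) * E) * Real.exp (L / 8) =
          ((D:ℝ) + 1) * (L + 1) * (E * Real.exp (L / 8)) := by ring
        _ = _ := by rw [hE8, mul_one]
    linarith
  have hq4 : 4 * (D:ℝ) + 2 ≤ q := by linarith
  have hq0 : (0:ℝ) < q := by linarith
  -- T bounds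
  have hT1 : 3 / 4 * (n : ℝ) * L ≤ (T : ℝ) := Nat.le_ceil _
  have hT2 : (T : ℝ) < 3 / 4 * (n : ℝ) * L + 1 := Nat.ceil_lt_add_one (by positivity)
  have hT3 : (T : ℝ) ≤ n * (L + 1) := by nlinarith
  -- p bound
  set s : ℝ := 1 - 1 / (n : ℝ) with hs
  have hs0 : 1 / 2 ≤ s := by
    have : 1 / (n:ℝ) ≤ 1 / 2 := by
      apply one_div_le_one_div_of_le (by norm_num) hn2
    linarith
  have hp : s ^ T ≤ Real.exp (-(3 / 4 * L)) := by
    have h1 : s ≤ Real.exp (-(1 / (n : ℝ))) := Real.one_sub_le_exp_neg _
    calc s ^ T ≤ (Real.exp (-(1 / (n : ℝ)))) ^ T := pow_le_pow_left₀ (by linarith) h1 T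
      _ = Real.exp (T * (-(1 / (n : ℝ)))) := by rw [Real.exp_nat_mul]
      _ ≤ _ := by
        apply Real.exp_le_exp.2
        have : 3 / 4 * L ≤ T * (1 / (n : ℝ)) := by
          rw [mul_one_div, le_div_iff₀ hn0]; linarith
        linarith
  have hp0 : 0 ≤ s ^ T := by positivity
  refine ⟨by exact_mod_cast hq4, ?_, ?_, ?_⟩
  · -- X1
    set r : ℝ := s + 3 * D / (q * n) with hr
    have hrs : r - s = 3 * D / (q * n) := by rw [hr]; ring
    have h0 : 0 ≤ 3 * (D:ℝ) / (q * n) := by positivity
    have h1 := pow_sub_pow_bound (r := r) (s := s) (by linarith) (by linarith) (by linarith) T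
    have hrT : r ^ T ≤ Real.exp (-(3 / 4 * L)) * Real.exp 1 := by
      have h1 : r ≤ Real.exp (-(1 / (n : ℝ)) + 3 * D / (q * n)) := by
        have := Real.add_one_le_exp (-(1 / (n : ℝ)) + 3 * D / (q * n))
        rw [hr, hs]; linarith
      calc r ^ T ≤ (Real.exp (-(1 / (n : ℝ)) + 3 * D / (q * n))) ^ T :=
            pow_le_pow_left₀ (by linarith) h1 T
        _ = Real.exp (T * (-(1 / (n : ℝ)) + 3 * D / (q * n))) := by rw [Real.exp_nat_mul]
        _ ≤ Real.exp (-(3 / 4 * L) + 1) := by
          apply Real.exp_le_exp.2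
          have ha : 3 / 4 * L ≤ T * (1 / (n : ℝ)) := by
            rw [mul_one_div, le_div_iff₀ hn0]; linarith
          have hb : (T : ℝ) * (3 * (D : ℝ) / ((q : ℝ) * (n : ℝ))) ≤ 1 := by
            rw [mul_div_assoc', div_le_one (by positivity)]
            calc (T:ℝ) * (3 * D) ≤ (n * (L + 1)) * (3 * D) :=
                  mul_le_mul_of_nonneg_right hT3 (by positivity)
              _ = (3 * D * (L + 1)) * n := by ring
              _ ≤ q * n := by
                  apply mul_le_mul_of_nonneg_right _ hn0.le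
                  nlinarith
          linarith
        _ = _ := by rw [Real.exp_add]
    have he : Real.exp 1 ≤ 3 := by
      have := Real.exp_one_lt_d9; linarith
    have hrT3 : r ^ T ≤ Real.exp (-(3 / 4 * L)) * 3 :=
      hrT.trans (mul_le_mul_of_nonneg_left he (Real.exp_pos _).le)
    have h2 : (n:ℝ) * r ^ T - n * s ^ T ≤
        n * (2 * (n * (L + 1)) * (3 * D / (q * n)) * (Real.exp (-(3 / 4 * L)) * 3)) := by
      rw [← mul_sub]
      apply mul_le_mul_of_nonneg_left _ hn0.le
      refine h1.trans ?_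
      rw [hrs]
      gcongr
    refine h2.trans ?_
    have h3 : (n:ℝ) * (2 * (n * (L + 1)) * (3 * D / (q * n)) * (Real.exp (-(3 / 4 * L)) * 3)) =
        18 * D * (L + 1) * (n * Real.exp (-(3 / 4 * L))) / q := by
      field_simp
      ring
    rw [h3]
    have h4 : (n:ℝ) * Real.exp (-(3 / 4 * L)) = Real.exp (L / 4) := by
      rw [← hexpL, ← Real.exp_add]; congr 1; ring
    rw [h4, div_le_iff₀ hq0]
    have h5 : Real.exp (L / 4) = E * Q := by
      rw [hE, hQ, ← Real.exp_add]; congr 1; ring
    rw [h5]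
    calc 18 * (D:ℝ) * (L + 1) * (E * Q) = 18 * (D * ((L + 1) * E)) * Q := by ring
      _ ≤ 18 * (1 / 200) * Q := by
          apply mul_le_mul_of_nonneg_right _ hQ0.le
          apply mul_le_mul_of_nonneg_left _ (by norm_num)
          have : 0 ≤ (L + 1) * E := by positivity
          linarith
      _ ≤ 1 / 10 * q := by linarith
  · -- X2
    have hq2D : (0:ℝ) < q - 2 * D := by linarith
    have hA1 : (q : ℝ) / (q - 2 * D) - 1 ≤ 4 * D / q := by
      rw [div_sub_one (ne_of_gt hq2D), div_le_div_iff₀ hq2D hq0]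
      nlinarith
    have hA1' : 0 ≤ (q : ℝ) / (q - 2 * D) - 1 := by
      rw [sub_nonneg, le_div_iff₀ hq2D]; linarith
    have hA2 : (q : ℝ) / (q - 2 * D) * q - 1 ≤ 4 * Q := by
      have h1 : (q : ℝ) / (q - 2 * D) ≤ 2 := by
        rw [div_le_iff₀ hq2D]; linarith
      have h2 : (1:ℝ) ≤ Q := by linarith
      have h3 : (q : ℝ) / (q - 2 * D) * q ≤ 2 * (2 * Q) := by
        apply mul_le_mul h1 (by linarith) hq0.le (by norm_num)
      linarith
    have h1 : (n : ℝ) * (s ^ T * ((q : ℝ) / (q - 2 * D) - 1)) ≤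
        n * (Real.exp (-(3 / 4 * L)) * (4 * D / q)) := by
      gcongr
    have hA3 : 0 ≤ (q : ℝ) / (q - 2 * D) * q - 1 := by
      have h1 : (1:ℝ) ≤ q := by linarith
      have h2 : (1:ℝ) ≤ (q : ℝ) / (q - 2 * D) := by linarith
      have h3 : (1:ℝ) * 1 ≤ (q : ℝ) / (q - 2 * D) * q := mul_le_mul h2 h1 (by norm_num) (by linarith)
      linarith
    have h2 : (n : ℝ) * ((s ^ T) ^ 2 * ((q : ℝ) / (q - 2 * D) * q - 1)) ≤
        n * (Real.exp (-(3 / 4 * L)) ^ 2 * (4 * Q)) := by
      apply mul_le_mul_of_nonneg_left _ hn0.le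
      apply mul_le_mul (pow_le_pow_left₀ hp0 hp 2) hA2 hA3 (by positivity)
    have h4 : (n:ℝ) * Real.exp (-(3 / 4 * L)) = Real.exp (L / 4) := by
      rw [← hexpL, ← Real.exp_add]; congr 1; ring
    have h5 : Real.exp (L / 4) = E * Q := by
      rw [hE, hQ, ← Real.exp_add]; congr 1; ring
    have h6 : (n : ℝ) * (Real.exp (-(3 / 4 * L)) * (4 * D / q)) ≤ 4 * D * E := by
      rw [← mul_assoc, h4, h5, mul_div_assoc', div_le_iff₀ hq0]
      calc E * Q * (4 * D) = 4 * D * E * Q := by ring
        _ ≤ 4 * D * E * q := by gcongr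
    have h7 : (n : ℝ) * (Real.exp (-(3 / 4 * L)) ^ 2 * (4 * Q)) = 4 * E := by
      rw [← hexpL, hQ, hE, ← Real.exp_nat_mul]
      have : Real.exp L * (Real.exp (((2:ℕ):ℝ) * -(3 / 4 * L)) * (4 * Real.exp (3 * L / 8))) =
          4 * (Real.exp L * Real.exp (((2:ℕ):ℝ) * -(3 / 4 * L)) * Real.exp (3 * L / 8)) := by
        ring
      rw [this, ← Real.exp_add, ← Real.exp_add]
      congr 2
      push_cast; ring
    have h8 : 4 * (D:ℝ) * E + 4 * E = 4 * ((D + 1) * E) := by ring
    linarith
  · -- mu
    have hs1 : 0 < s := by linarith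
    have h1 : -(1 / ((n:ℝ) - 1)) ≤ Real.log s := by
      have := Real.one_sub_inv_le_log_of_pos hs1
      refine le_trans (le_of_eq ?_) this
      rw [hs]
      have hn1 : (n:ℝ) - 1 ≠ 0 := by linarith
      field_simp
      ring
    have h2 : s ^ T = Real.exp (T * Real.log s) := by
      rw [Real.exp_nat_mul, Real.exp_log hs1]
    have hLn : L + 1 ≤ n := by
      rw [← hexpL]; exact Real.add_one_le_exp L
    have h3 : -(3 / 4 * L + 1) ≤ T * Real.log s := by
      have hT4 : (T:ℝ) * (1 / ((n:ℝ) - 1)) ≤ 3 / 4 * L + 1 := by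
        rw [mul_one_div, div_le_iff₀ (by linarith)]
        have e : (3 / 4 * L + 1) * ((n:ℝ) - 1) = 3 / 4 * n * L + n - 3 / 4 * L - 1 := by ring
        rw [e]
        linarith
      have hT0 : (0:ℝ) ≤ T := by positivity
      have h5 := mul_le_mul_of_nonneg_left h1 hT0
      linarith
    rw [h2]
    have h4 : Real.exp (-(3 / 4 * L + 1)) ≤ Real.exp (T * Real.log s) := Real.exp_le_exp.2 h3
    calc (9:ℝ) ≤ Real.exp (L / 4 - 1) := by
          have h5 : Real.exp 3 ≤ Real.exp (L / 4 - 1) := Real.exp_le_exp.2 (by linarith)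
          have h6 : Real.exp 3 = (Real.exp 1) ^ 3 := by
            rw [← Real.exp_nat_mul]; norm_num
          have h7 : (2.5:ℝ) ≤ Real.exp 1 := by have := Real.exp_one_gt_d9; linarith
          have h8 : (2.5:ℝ) ^ 3 ≤ (Real.exp 1) ^ 3 := pow_le_pow_left₀ (by norm_num) h7 3
          norm_num at h8
          linarith
      _ = n * Real.exp (-(3 / 4 * L + 1)) := by
          rw [← hexpL, ← Real.exp_add]; congr 1; ring
      _ ≤ _ := mul_le_mul_of_nonneg_left h4 hn0.le

end Asymptotics

/-- For every degree bound `D`, every sufficiently large finite graph of maximum degree at most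
`D` violates monotonicity in `q` of the Glauber dynamics mixing time, at some `q ≥ Δ + 2`. -/
theorem result : ∀ D : ℕ, ∃ N : ℕ, ∀ (V : Type) [Fintype V] [DecidableEq V]
    (G : SimpleGraph V) [DecidableRel G.Adj], N ≤ Fintype.card V → G.maxDegree ≤ D →
    ∃ q : ℕ, G.maxDegree + 2 ≤ q ∧ ∃ t t' : ℕ,
      IsMixingTime G q t ∧ IsMixingTime G (q + 1) t' ∧ t < t' := by
  intro D
  obtain ⟨L0, hL0, hL⟩ := exists_L D
  refine ⟨⌈Real.exp L0⌉₊ + 2, ?_⟩
  intro V _ _ G _ hN hmax
  have hD : ∀ v, G.degree v ≤ D := fun v => (G.degree_le_maxDegree v).trans hmax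
  set n : ℕ := Fintype.card V with hn
  have hn2 : 2 ≤ n := by omega
  have : Nonempty V := Fintype.card_pos_iff.1 (by omega)
  have hnpos : (0:ℝ) < n := by
    have : 0 < n := by omega
    exact_mod_cast this
  have hlog : L0 ≤ Real.log n := by
    rw [Real.le_log_iff_exp_le hnpos]
    calc Real.exp L0 ≤ (⌈Real.exp L0⌉₊ : ℝ) := Nat.le_ceil _
      _ ≤ (n : ℝ) := by
        have : ⌈Real.exp L0⌉₊ ≤ n := by omega
        exact_mod_cast this
  obtain ⟨hq4, hX1, hX2, hmu⟩ := numerics D n (Real.log n) rfl (hL0.trans hlog)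
    (hL _ hlog) hn2
  set q : ℕ := ⌈Real.exp (3 * Real.log n / 8)⌉₊ with hq
  set T : ℕ := ⌈3 / 4 * (n : ℝ) * Real.log n⌉₊ with hT
  -- upper bound at q
  have hup : ∀ σ : PColoring G q, tvDist G q T σ ≤ 1 / Real.exp 1 := by
    intro σ
    have h1 := tv_upper G hD (by omega) (by
      have : 2 * D < q := by omega
      exact_mod_cast this) T σ
    exact h1.trans (num_bound hX1 hX2)
  -- lower bound at q1
  set q1 : ℕ := q + D + 10 * n with hq1
  have hlow : ∀ s ≤ T, ∀ σ : PColoring G q1, 1 / Real.exp 1 < tvDist G q1 s σ := by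
    intro s hs σ
    have h1 := tv_lower G hD (q := q1) (by
      have : D < q1 := by omega
      exact_mod_cast this) s σ
    refine lt_of_lt_of_le ?_ h1
    rw [← hn]
    have h2 : (n : ℝ) / ((q1 : ℝ) - D) ≤ 1 / 10 := by
      have h3 : (q1 : ℝ) - D = q + 10 * n := by rw [hq1]; push_cast; ring
      rw [h3, div_le_div_iff₀ (by positivity) (by norm_num)]
      have : (0:ℝ) ≤ q := by positivity
      linarith
    set μ : ℝ := (n : ℝ) * (1 - 1 / (n : ℝ)) ^ s with hμ
    have hμ9 : 9 ≤ μ := by
      refine hmu.trans ?_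
      rw [hμ]
      apply mul_le_mul_of_nonneg_left _ hnpos.le
      have hn1 : 1 / (n:ℝ) ≤ 1 := by
        rw [div_le_one hnpos]
        have : 1 ≤ n := by omega
        exact_mod_cast this
      exact pow_le_pow_of_le_one (by linarith) (by
        have : 0 < 1 / (n:ℝ) := by positivity
        linarith) hs
    have h4 : 9 / 10 ≤ μ / (1 + μ) := by
      rw [div_le_div_iff₀ (by norm_num) (by linarith)]
      linarith
    have h5 : 1 / Real.exp 1 < 1 / 2 := by
      apply one_div_lt_one_div_of_lt (by norm_num)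
      have := Real.exp_one_gt_d9
      linarith
    linarith
  -- the colouring set at q1 is nonempty
  have hne : Nonempty (PColoring G q1) := by
    have hcard : Fintype.card V ≤ Fintype.card (Fin q1) := by
      rw [Fintype.card_fin, ← hn]; omega
    obtain ⟨f⟩ := Function.Embedding.nonempty_of_card_le hcard
    exact ⟨⟨f, fun u v huv h => G.ne_of_adj huv (f.injective h)⟩⟩
  by_contra hcon
  push Not at hcon
  -- mixing times exist
  have hex : ∀ q' : ℕ, q ≤ q' → ∃ t, IsMixingTime G q' t :=
    fun q' hq' => exists_mixing G hD (by omega)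
  have hstep : ∀ k : ℕ, ∀ t, IsMixingTime G (q + k) t → t ≤ T := by
    intro k
    induction k with
    | zero =>
      intro t ht
      exact ht.2 hup
    | succ k ih =>
      intro t ht
      obtain ⟨t0, ht0⟩ := hex (q + k) (by omega)
      have h1 := hcon (q + k) (by omega) t0 t ht0 (by
        have : q + k + 1 = q + (k + 1) := by ring
        rw [this]; exact ht)
      exact h1.trans (ih t0 ht0)
  obtain ⟨t1, ht1⟩ := hex q1 (by omega)
  have h1 : t1 ≤ T := by
    have e : q1 = q + (D + 10 * n) := by omega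
    rw [e] at ht1
    exact hstep _ t1 ht1
  obtain ⟨σ⟩ := hne
  have h2 := ht1.1 σ
  exact absurd h2 (not_le.2 (hlow t1 h1 σ))

end Pool.Agent.Results.MP_a221c1_pr.BoundedDegree
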